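import Pool.Agent.H.MP_5bbf46_al.Defs

namespace Pool.Agent.H.MP_5bbf46_al

open Classical

/-- `φ` is multiplicative on `S`. -/
def MulOn {G H : Type} [Group G] [Group H] (S : Finset G) (φ : G → H) : Prop :=
  ∀ x ∈ S, ∀ y ∈ S, φ (x * y) = φ x * φ y

theorem MulOn.mono {G H : Type} [Group G] [Group H] {S T : Finset G} {φ : G → H}
    (h : MulOn T φ) (hST : S ⊆ T) : MulOn S φ := fun x hx y hy => h x (hST hx) y (hST hy)

theorem MulOn.one {G H : Type} [Group G] [Group H] {S : Finset G} {φ : G → H}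
    (h : MulOn S φ) (h1 : (1 : G) ∈ S) : φ 1 = 1 := by
  have := h 1 h1 1 h1
  rw [mul_one] at this
  exact left_eq_mul.mp this

theorem MulOn.inv {G H : Type} [Group G] [Group H] {S : Finset G} {φ : G → H}
    (h : MulOn S φ) (h1 : (1 : G) ∈ S) {x : G} (hx : x ∈ S) (hx' : x⁻¹ ∈ S) :
    φ x⁻¹ = (φ x)⁻¹ := by
  have := h x hx x⁻¹ hx'
  rw [mul_inv_cancel, h.one h1] at this
  exact (eq_inv_of_mul_eq_one_right this.symm)

theorem mulOn_hom {G H : Type} [Group G] [Group H] (S : Finset G) (φ : G →* H) : MulOn S φ :=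
  fun x _ y _ => map_mul φ x y

theorem MulOn.comp_hom {G H Q : Type} [Group G] [Group H] [Group Q] {S : Finset G} {φ : G → H}
    (h : MulOn S φ) (ψ : H →* Q) : MulOn S (fun x => ψ (φ x)) := fun x hx y hy => by
  simp only [h x hx y hy, map_mul]

/-- locally separated by the class -/
def LS (K : Cls) : Cls := fun G _ =>
  ∀ (S : Finset G) (g : G), g ≠ 1 → ∃ (H : Type) (_ : Group H) (φ : G → H),
    K H ∧ MulOn S φ ∧ φ g ≠ 1

def QV (K : Cls) : Prop := ∀ (G : Type) [Group G], LS K G → K G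

def Le (X Y : Cls) : Prop := ∀ (G : Type) [Group G], X G → Y G

theorem Le.antisymm {X Y : Cls} (h : Le X Y) (h' : Le Y X) : X = Y := by
  funext G inst
  exact propext ⟨h G, h' G⟩

theorem Le.trans {X Y Z : Cls} (h : Le X Y) (h' : Le Y Z) : Le X Z := fun G _ hG => h' G (h G hG)

theorem le_LS (K : Cls) : Le K (LS K) := fun G _ hG _ _ hg =>
  ⟨G, inferInstance, id, hG, fun _ _ _ _ => rfl, hg⟩

theorem QV_LS (K : Cls) : QV (LS K) := by
  intro G _ h S g hg
  obtain ⟨H, _, φ, hH, hφ, hφg⟩ := h S g hg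
  obtain ⟨Q, _, ψ, hQ, hψ, hψg⟩ := hH (S.image φ) (φ g) hφg
  refine ⟨Q, inferInstance, fun x => ψ (φ x), hQ, fun x hx y hy => ?_, hψg⟩
  simp only [hφ x hx y hy]
  exact hψ _ (Finset.mem_image_of_mem _ hx) _ (Finset.mem_image_of_mem _ hy)

theorem QV.resid {K : Cls} (hK : QV K) (G : Type) [Group G]
    (h : ∀ g : G, g ≠ 1 → ∃ (H : Type) (_ : Group H) (φ : G →* H), K H ∧ φ g ≠ 1) : K G := by
  refine hK G fun S g hg => ?_
  obtain ⟨H, _, φ, hH, hg⟩ := h g hg
  exact ⟨H, inferInstance, φ, hH, mulOn_hom S φ, hg⟩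

theorem QV.sub {K : Cls} (hK : QV K) {G H : Type} [Group G] [Group H] (φ : G →* H)
    (hφ : Function.Injective φ) (hH : K H) : K G :=
  hK.resid G fun g hg => ⟨H, inferInstance, φ, hH, fun h => hg (hφ (by rw [h, map_one]))⟩

theorem QV.subgroup {K : Cls} (hK : QV K) {G : Type} [Group G] (N : Subgroup G) (hG : K G) :
    K N := hK.sub N.subtype N.subtype_injective hG

theorem QV.triv {K : Cls} (hK : QV K) (G : Type) [Group G] [Subsingleton G] : K G :=
  hK.resid G fun g hg => absurd (Subsingleton.elim g 1) hg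

theorem QV.prod {K : Cls} (hK : QV K) {G H : Type} [Group G] [Group H] (hG : K G) (hH : K H) :
    K (G × H) := by
  refine hK.resid _ fun g hg => ?_
  by_cases h1 : g.1 = 1
  · exact ⟨H, inferInstance, MonoidHom.snd G H, hH, fun h => hg (Prod.ext h1 h)⟩
  · exact ⟨G, inferInstance, MonoidHom.fst G H, hG, h1⟩

theorem QV.pi {K : Cls} (hK : QV K) (I : Type) {G : Type} [Group G] (hG : K G) :
    K (I → G) := by
  refine hK.resid _ fun g hg => ?_
  obtain ⟨i, hi⟩ := Function.ne_iff.mp hg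
  exact ⟨G, inferInstance, Pi.evalMonoidHom (fun _ => G) i, hG, hi⟩

theorem QV.of_fg {K : Cls} (hK : QV K) (G : Type) [Group G]
    (h : ∀ A : Subgroup G, Group.FG A → K A) : K G := by
  refine hK G fun S g hg => ?_
  let A := Subgroup.closure ((insert g S : Finset G) : Set G)
  have hA : ∀ x ∈ insert g S, x ∈ A := fun x hx => Subgroup.subset_closure hx
  refine ⟨A, inferInstance, fun x => if hx : x ∈ A then ⟨x, hx⟩ else 1, h A ?_, ?_, ?_⟩
  · exact Group.closure_finset_fg _
  · intro x hx y hy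
    have hx' := hA x (Finset.mem_insert_of_mem hx)
    have hy' := hA y (Finset.mem_insert_of_mem hy)
    simp only [dif_pos hx', dif_pos hy', dif_pos (A.mul_mem hx' hy')]
    rfl
  · have hg' := hA g (Finset.mem_insert_self _ _)
    simp only [dif_pos hg']
    exact fun h => hg (congrArg Subtype.val h)

/-- evaluation of words under local homomorphisms -/
theorem word_local {G : Type} [Group G] (g : ℕ → G) (w : FreeGroup ℕ) :
    ∃ S : Finset G, ∀ (H : Type) [Group H] (φ : G → H), MulOn S φ →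
      φ (FreeGroup.lift g w) = FreeGroup.lift (fun i => φ (g i)) w := by
  induction w using FreeGroup.induction_on with
  | C1 => exact ⟨{1}, fun H _ φ h => by simpa using h.one (by simp)⟩
  | of x => exact ⟨∅, fun H _ φ h => by simp⟩
  | inv_of x _ =>
    refine ⟨{1, g x, (g x)⁻¹}, fun H _ φ h => ?_⟩
    simpa using h.inv (by simp) (x := g x) (by simp) (by simp)
  | mul u v hu hv =>
    obtain ⟨S, hS⟩ := hu
    obtain ⟨T, hT⟩ := hv
    refine ⟨S ∪ T ∪ {FreeGroup.lift g u, FreeGroup.lift g v}, fun H _ φ h => ?_⟩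
    rw [map_mul, map_mul, h _ (by simp) _ (by simp), hS H φ (h.mono (by intro x hx; simp [hx])),
      hT H φ (h.mono (by intro x hx; simp [hx]))]

theorem words_local {G : Type} [Group G] (g : ℕ → G) (l : List (FreeGroup ℕ)) :
    ∃ S : Finset G, ∀ (H : Type) [Group H] (φ : G → H), MulOn S φ → ∀ w ∈ l,
      φ (FreeGroup.lift g w) = FreeGroup.lift (fun i => φ (g i)) w := by
  induction l with
  | nil => exact ⟨∅, fun H _ φ _ w hw => by simp at hw⟩
  | cons u l ih =>
    obtain ⟨S, hS⟩ := word_local g u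
    obtain ⟨T, hT⟩ := ih
    refine ⟨S ∪ T, fun H _ φ h w hw => ?_⟩
    rcases List.mem_cons.mp hw with rfl | hw
    · exact hS H φ (h.mono Finset.subset_union_left)
    · exact hT H φ (h.mono Finset.subset_union_right) w hw

theorem IsQuasivariety.qv {X : Cls} (h : IsQuasivariety X) : QV X := by
  obtain ⟨T, hT⟩ := h
  intro G _ hG
  rw [hT]
  intro q hq g hg
  by_contra hne
  obtain ⟨S, hS⟩ := words_local g (q.2 :: q.1)
  obtain ⟨H, _, φ, hH, hφ, hφg⟩ := hG (insert 1 S) _ hne
  have h1 := hφ.one (Finset.mem_insert_self _ _)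
  have hφ' := hφ.mono (Finset.subset_insert _ _)
  apply hφg
  rw [hS H φ hφ' _ (List.mem_cons_self)]
  refine (hT H).mp hH q hq _ fun u hu => ?_
  rw [← hS H φ hφ' _ (List.mem_cons_of_mem _ hu), hg u hu, h1]

theorem exists_code {G : Type} [Group G] (S : Finset G) :
    ∃ (e : G → ℕ) (d : ℕ → G), ∀ x ∈ S, d (e x) = x := by
  refine ⟨fun x => S.toList.idxOf x, fun n => S.toList.getD n 1, fun x hx => ?_⟩
  have : S.toList.idxOf x < S.toList.length := List.idxOf_lt_length_iff.mpr (by simpa using hx)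
  simp only [List.getD_eq_getElem _ _ this, List.getElem_idxOf]

theorem QV.isQuasivariety {X : Cls} (h : QV X) : IsQuasivariety X := by
  refine ⟨{q | ∀ (H : Type) [Group H], X H → Holds H q}, fun G _ => ⟨fun hG q hq => hq G hG, ?_⟩⟩
  intro hG
  refine h G fun S g hg => ?_
  obtain ⟨e, d, hed⟩ := exists_code (insert g (S ∪ (S ×ˢ S).image fun p => p.1 * p.2))
  let l : List (FreeGroup ℕ) := (S ×ˢ S).toList.map fun p =>
    FreeGroup.of (e p.1) * FreeGroup.of (e p.2) * (FreeGroup.of (e (p.1 * p.2)))⁻¹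
  by_contra hne
  have hq : ∀ (H : Type) [Group H], X H → Holds H (l, FreeGroup.of (e g)) := by
    intro H _ hH f hf
    by_contra hf'
    refine hne ⟨H, inferInstance, fun x => f (e x), hH, fun x hx y hy => ?_, by simpa using hf'⟩
    have := hf _ (List.mem_map.mpr ⟨(x, y), by simp [hx, hy], rfl⟩)
    simp only [map_mul, map_inv, FreeGroup.lift_apply_of] at this
    exact (mul_inv_eq_one.mp this).symm
  have := hG _ hq d (by
    intro u hu
    obtain ⟨p, hp, rfl⟩ := List.mem_map.mp hu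
    have hp' : p ∈ S ×ˢ S := by simpa using hp
    have hp'' := Finset.mem_product.mp hp'
    simp only [map_mul, map_inv, FreeGroup.lift_apply_of]
    rw [hed p.1 (by simp [hp''.1]), hed p.2 (by simp [hp''.2]), hed (p.1 * p.2)
      (Finset.mem_insert_of_mem (Finset.mem_union_right _ (Finset.mem_image_of_mem _ hp')))]
    simp)
  simp only [FreeGroup.lift_apply_of] at this
  rw [hed g (Finset.mem_insert_self _ _)] at this
  exact hg this

/-- the residual -/
def R (K : Cls) (G : Type) [Group G] : Subgroup G where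
  carrier := {g | ∀ (H : Type) [Group H] (φ : G →* H), K H → φ g = 1}
  mul_mem' := fun ha hb H _ φ hH => by rw [map_mul, ha H φ hH, hb H φ hH, mul_one]
  one_mem' := fun H _ φ _ => map_one φ
  inv_mem' := fun ha H _ φ hH => by rw [map_inv, ha H φ hH, inv_one]

theorem mem_R {K : Cls} {G : Type} [Group G] {g : G} :
    g ∈ R K G ↔ ∀ (H : Type) [Group H] (φ : G →* H), K H → φ g = 1 := Iff.rfl

theorem R_map {K : Cls} {G G' : Type} [Group G] [Group G'] (ψ : G →* G') {g : G}
    (hg : g ∈ R K G) : ψ g ∈ R K G' := fun H _ φ hH => hg H (φ.comp ψ) hH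

instance R_normal (K : Cls) (G : Type) [Group G] : (R K G).Normal :=
  ⟨fun n hn g H _ φ hH => by simp only [map_mul, hn H φ hH, mul_one, map_inv, mul_inv_cancel]⟩

theorem R_eq_one {K : Cls} {G : Type} [Group G] (hG : K G) {g : G} (hg : g ∈ R K G) : g = 1 :=
  hg G (MonoidHom.id G) hG

theorem QV.of_R {K : Cls} (hK : QV K) {G : Type} [Group G] (h : ∀ g ∈ R K G, g = 1) : K G := by
  refine hK.resid G fun g hg => ?_
  by_contra hne
  refine hg (h g fun H _ φ hH => ?_)
  by_contra h1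
  exact hne ⟨H, inferInstance, φ, hH, h1⟩

theorem QV.of_surj {K : Cls} (hK : QV K) {G Q : Type} [Group G] [Group Q] (π : G →* Q)
    (hπ : Function.Surjective π) (hker : π.ker = R K G) : K Q := by
  refine hK.of_R fun q hq => ?_
  obtain ⟨g, rfl⟩ := hπ q
  rw [← MonoidHom.mem_ker, hker]
  intro H _ φ hH
  have hle : π.ker ≤ φ.ker := fun x hx => by
    rw [hker] at hx
    exact hx H φ hH
  have := hq H (π.liftOfRightInverse _ (Function.rightInverse_surjInv hπ) ⟨φ, hle⟩) hH
  rwa [MonoidHom.liftOfRightInverse_comp_apply] at this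

theorem QV.quot {K : Cls} (hK : QV K) (G : Type) [Group G] : K (G ⧸ R K G) :=
  hK.of_surj (QuotientGroup.mk' _) (QuotientGroup.mk'_surjective _) (QuotientGroup.ker_mk' _)

/-- the local residual -/
def R' (K : Cls) (G : Type) [Group G] : Subgroup G where
  carrier := {g | ∃ S : Finset G, ∀ (H : Type) [Group H] (φ : G → H), K H → MulOn S φ → φ g = 1}
  mul_mem' := by
    rintro a b ⟨S, hS⟩ ⟨T, hT⟩
    refine ⟨S ∪ T ∪ {a, b}, fun H _ φ hH h => ?_⟩
    rw [h a (by simp) b (by simp), hS H φ hH (h.mono (by intro x hx; simp [hx])),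
      hT H φ hH (h.mono (by intro x hx; simp [hx])), mul_one]
  one_mem' := ⟨{1}, fun H _ φ _ h => h.one (by simp)⟩
  inv_mem' := by
    rintro a ⟨S, hS⟩
    refine ⟨S ∪ {1, a, a⁻¹}, fun H _ φ hH h => ?_⟩
    rw [h.inv (by simp) (by simp) (by simp), hS H φ hH (h.mono (by intro x hx; simp [hx])),
      inv_one]

instance R'_normal (K : Cls) (G : Type) [Group G] : (R' K G).Normal := by
  constructor
  rintro a ⟨S, hS⟩ g
  refine ⟨S ∪ {1, a, g, g⁻¹, g * a}, fun H _ φ hH h => ?_⟩
  rw [h _ (by simp) _ (by simp), h _ (by simp) _ (by simp), h.inv (by simp) (by simp) (by simp),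
    hS H φ hH (h.mono (by intro x hx; simp [hx])), mul_one, mul_inv_cancel]

theorem R'_finset {K : Cls} {G : Type} [Group G] (F : Finset G) (hF : ∀ x ∈ F, x ∈ R' K G) :
    ∃ S : Finset G, ∀ (H : Type) [Group H] (φ : G → H), K H → MulOn S φ → ∀ x ∈ F, φ x = 1 := by
  induction F using Finset.induction_on with
  | empty => exact ⟨∅, fun H _ φ _ _ x hx => by simp at hx⟩
  | insert a F _ ih =>
    obtain ⟨S, hS⟩ := hF a (Finset.mem_insert_self _ _)
    obtain ⟨T, hT⟩ := ih fun x hx => hF x (Finset.mem_insert_of_mem hx)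
    refine ⟨S ∪ T, fun H _ φ hH h x hx => ?_⟩
    rcases Finset.mem_insert.mp hx with rfl | hx
    · exact hS H φ hH (h.mono Finset.subset_union_left)
    · exact hT H φ hH (h.mono Finset.subset_union_right) x hx

theorem QV.quot' {K : Cls} (hK : QV K) (G : Type) [Group G] : K (G ⧸ R' K G) := by
  refine hK _ fun F g hg => ?_
  let s : G ⧸ R' K G → G := Quotient.out
  have hs : ∀ x, ((s x : G) : G ⧸ R' K G) = x := fun x => QuotientGroup.out_eq' x
  obtain ⟨S, hS⟩ := R'_finset (K := K)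
    ((F ×ˢ F).image fun p => (s (p.1 * p.2))⁻¹ * (s p.1 * s p.2)) (by
      intro x hx
      obtain ⟨p, _, rfl⟩ := Finset.mem_image.mp hx
      rw [← QuotientGroup.eq]
      simp [hs])
  have hg' : s g ∉ R' K G := fun h => hg (by rw [← hs g]; exact (QuotientGroup.eq_one_iff _).mpr h)
  by_contra hne
  refine hg' ⟨S ∪ F.image s ∪ ((F ×ˢ F).image fun p => s (p.1 * p.2)) ∪
    ((F ×ˢ F).image fun p => (s (p.1 * p.2))⁻¹ * (s p.1 * s p.2)), fun H _ φ hH h => ?_⟩
  by_contra h1
  refine hne ⟨H, inferInstance, fun x => φ (s x), hH, fun x hx y hy => ?_, h1⟩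
  have hp : (x, y) ∈ F ×ˢ F := Finset.mem_product.mpr ⟨hx, hy⟩
  have e1 := hS H φ hH (h.mono (by intro x hx; simp [hx])) _ (Finset.mem_image_of_mem _ hp)
  have e2 := h (s (x * y)) (Finset.mem_union_left _ (Finset.mem_union_right _
    (Finset.mem_image_of_mem _ hp))) _ (Finset.mem_union_right _ (Finset.mem_image_of_mem _ hp))
  have e3 := h (s x) (Finset.mem_union_left _ (Finset.mem_union_left _ (Finset.mem_union_right _
    (Finset.mem_image_of_mem _ hx)))) (s y) (Finset.mem_union_left _ (Finset.mem_union_left _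
    (Finset.mem_union_right _ (Finset.mem_image_of_mem _ hy))))
  simp only at e1 e2
  rw [e1, mul_one, mul_inv_cancel_left] at e2
  rw [← e3, e2]

theorem QV.R_le {K : Cls} (hK : QV K) {G : Type} [Group G] {g : G} (hg : g ∈ R K G) :
    g ∈ R' K G := by
  have := hg _ (QuotientGroup.mk' (R' K G)) (hK.quot' G)
  exact (QuotientGroup.eq_one_iff _).mp this

theorem mul_of_hom {X Y : Cls} (hY : QV Y) {G Q : Type} [Group G] [Group Q] (φ : G →* Q)
    (hQ : Y Q) (hker : X φ.ker) : mul X Y G :=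
  ⟨φ.ker, inferInstance, hker, hY.sub _ (QuotientGroup.kerLift_injective φ) hQ⟩

theorem mul_iff {X Y : Cls} (hX : QV X) (hY : QV Y) (G : Type) [Group G] :
    mul X Y G ↔ X (R Y G) := by
  constructor
  · rintro ⟨N, _, hN, hQ⟩
    have hle : R Y G ≤ N := fun g hg =>
      (QuotientGroup.eq_one_iff _).mp (hg _ (QuotientGroup.mk' N) hQ)
    exact hX.sub (Subgroup.inclusion hle) (Subgroup.inclusion_injective hle) hN
  · intro h
    exact ⟨R Y G, inferInstance, h, hY.quot G⟩

theorem QV.mul {X Y : Cls} (hX : QV X) (hY : QV Y) : QV (mul X Y) := by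
  intro G _ hG
  rw [mul_iff hX hY]
  refine hX _ fun F g hg => ?_
  obtain ⟨S, hS⟩ := R'_finset (K := Y) ((insert g F).image Subtype.val) (by
    intro x hx
    obtain ⟨y, _, rfl⟩ := Finset.mem_image.mp hx
    exact hY.R_le y.2)
  obtain ⟨H, _, φ, hH, hφ, hφg⟩ := hG (S ∪ F.image Subtype.val) g.1 (fun h => hg (Subtype.ext h))
  have hin : ∀ x ∈ insert g F, φ x.1 ∈ R Y H := fun x hx =>
    (QuotientGroup.eq_one_iff _).mp (hS _ _ (hY.quot H)
      ((hφ.mono Finset.subset_union_left).comp_hom (QuotientGroup.mk' (R Y H))) _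
      (Finset.mem_image_of_mem _ hx))
  refine ⟨R Y H, inferInstance, fun x => if hx : φ x.1 ∈ R Y H then ⟨φ x.1, hx⟩ else 1,
    (mul_iff hX hY H).mp hH, fun x hx y hy => ?_, ?_⟩
  · have hx' := hin x (Finset.mem_insert_of_mem hx)
    have hy' := hin y (Finset.mem_insert_of_mem hy)
    have e : φ (x * y).1 = φ x.1 * φ y.1 :=
      hφ _ (Finset.mem_union_right _ (Finset.mem_image_of_mem _ hx)) _
        (Finset.mem_union_right _ (Finset.mem_image_of_mem _ hy))
    have hxy : φ (x * y).1 ∈ R Y H := e ▸ (R Y H).mul_mem hx' hy'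
    simp only [dif_pos hx', dif_pos hy', dif_pos hxy]
    exact Subtype.ext e
  · simp only [dif_pos (hin g (Finset.mem_insert_self _ _))]
    exact fun h => hφg (congrArg Subtype.val h)

theorem R_mul {Y Z : Cls} (hY : QV Y) (hZ : QV Z) (G : Type) [Group G] :
    R (mul Y Z) G = (R Y (R Z G)).map (R Z G).subtype := by
  apply le_antisymm
  · have hN : ((R Y (R Z G)).map (R Z G).subtype).Normal := by
      constructor
      rintro _ ⟨n, hn, rfl⟩ g
      exact ⟨MulAut.conjNormal g n, R_map (MulAut.conjNormal g).toMonoidHom hn, rfl⟩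
    intro g hg
    set N := (R Y (R Z G)).map (R Z G).subtype with hNdef
    have hNle : N ≤ R Z G := by
      rintro _ ⟨n, _, rfl⟩
      exact n.2
    refine (QuotientGroup.eq_one_iff _).mp (hg _ (QuotientGroup.mk' N) ?_)
    let ψ : G ⧸ N →* G ⧸ R Z G := QuotientGroup.map N (R Z G) (MonoidHom.id G) hNle
    refine mul_of_hom hZ ψ (hZ.quot G) ?_
    let π : R Z G →* ψ.ker := ((QuotientGroup.mk' N).comp (R Z G).subtype).codRestrict _ (by
      intro x
      rw [MonoidHom.mem_ker]
      exact (QuotientGroup.eq_one_iff _).mpr x.2)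
    refine hY.of_surj π ?_ ?_
    · rintro ⟨q, hq⟩
      obtain ⟨x, rfl⟩ := QuotientGroup.mk'_surjective N q
      exact ⟨⟨x, (QuotientGroup.eq_one_iff _).mp hq⟩, rfl⟩
    · ext x
      rw [MonoidHom.mem_ker, Subtype.ext_iff]
      change ((x : G) : G ⧸ N) = 1 ↔ _
      rw [QuotientGroup.eq_one_iff]
      constructor
      · rintro ⟨n, hn, h⟩
        rwa [← Subtype.ext h]
      · intro h
        exact ⟨x, h, rfl⟩
  · rintro _ ⟨n, hn, rfl⟩ H _ φ hH
    let ψ : R Z G →* R Z H := (φ.comp (R Z G).subtype).codRestrict _ fun x => R_map φ x.2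
    exact congrArg Subtype.val (hn _ ψ ((mul_iff hY hZ H).mp hH))

theorem mul_assoc' {X Y Z : Cls} (hX : QV X) (hY : QV Y) (hZ : QV Z) :
    mul (mul X Y) Z = mul X (mul Y Z) := by
  funext G inst
  apply propext
  rw [mul_iff (hX.mul hY) hZ, mul_iff hX hY, mul_iff hX (hY.mul hZ), R_mul hY hZ]
  have e := (R Y (R Z G)).equivMapOfInjective (R Z G).subtype (R Z G).subtype_injective
  exact ⟨hX.sub e.symm.toMonoidHom e.symm.injective, hX.sub e.toMonoidHom e.injective⟩

theorem QV_triv : QV triv := fun G _ h => by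
  refine subsingleton_of_forall_eq 1 fun g => ?_
  by_contra hg
  obtain ⟨H, _, φ, hH, hφ, h1⟩ := h ∅ g hg
  exact h1 (@Subsingleton.elim H hH _ _)

theorem le_mul_left {X Y : Cls} (hX : QV X) (hY : QV Y) : Le X (mul X Y) := fun G _ hG =>
  (mul_iff hX hY G).mpr (hX.subgroup _ hG)

theorem le_mul_right {X Y : Cls} (hX : QV X) (hY : QV Y) : Le Y (mul X Y) := fun G _ hG => by
  rw [mul_iff hX hY G]
  have : Subsingleton (R Y G) := subsingleton_of_forall_eq 1 fun g => Subtype.ext (R_eq_one hG g.2)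
  exact hX.triv _

theorem triv_mul {Y : Cls} (hY : QV Y) : mul triv Y = Y := by
  refine Le.antisymm (fun G _ hG => ?_) (le_mul_right QV_triv hY)
  rw [mul_iff QV_triv hY] at hG
  exact hY.of_R fun g hg => congrArg Subtype.val (@Subsingleton.elim (R Y G) hG ⟨g, hg⟩ 1)

theorem mul_triv {X : Cls} (hX : QV X) : mul X triv = X := by
  refine Le.antisymm (fun G _ hG => ?_) (le_mul_left hX QV_triv)
  rw [mul_iff hX QV_triv] at hG
  let π : G →* R triv G := (MonoidHom.id G).codRestrict _ fun g H _ φ hH => @Subsingleton.elim H hH _ _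
  exact hX.sub π (fun a b h => congrArg Subtype.val h) hG

theorem ne_triv {X : Cls} (hX : QV X) (h : X ≠ triv) :
    ∃ (A : Type) (_ : Group A) (a : A), X A ∧ a ≠ 1 := by
  by_contra hne
  refine h (Le.antisymm (fun G _ hG => subsingleton_of_forall_eq 1 fun g => ?_)
    fun G _ hG => @QV.triv _ hX G _ hG)
  by_contra hg
  exact hne ⟨G, inferInstance, g, hG, hg⟩

end Pool.Agent.H.MP_5bbf46_al
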