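import Pool.Agent.H.MP_5bbf46_al.A

namespace Pool.Agent.H.MP_5bbf46_al

open Classical RegularWreathProduct

abbrev F : Type := FreeGroup ℕ

/-- base embedding -/
def bs (A B : Type) [Group A] [Group B] : (B → A) →* A ≀ᵣ B where
  toFun f := ⟨f, 1⟩
  map_one' := rfl
  map_mul' _ _ := by ext <;> simp

@[simp] theorem bs_left {A B : Type} [Group A] [Group B] (f : B → A) : (bs A B f).left = f := rfl
@[simp] theorem bs_right {A B : Type} [Group A] [Group B] (f : B → A) : (bs A B f).right = 1 := rfl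

theorem bs_inj (A B : Type) [Group A] [Group B] : Function.Injective (bs A B) :=
  fun _ _ h => congrArg RegularWreathProduct.left h

theorem eq_bs {A B : Type} [Group A] [Group B] {w : A ≀ᵣ B} (h : w.right = 1) :
    w = bs A B w.left := by
  ext <;> simp [h]

theorem eq_bs_mul {A B : Type} [Group A] [Group B] (w : A ≀ᵣ B) :
    w = bs A B w.left * inl w.right := by
  ext <;> simp

/-- maps between wreath products -/
def wmap {A B A' B' : Type} [Group A] [Group B] [Group A'] [Group B'] (ρ : B →* B')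
    (Φ : (B → A) →* (B' → A'))
    (h : ∀ β f y, Φ (fun x => f (β⁻¹ * x)) y = Φ f ((ρ β)⁻¹ * y)) : A ≀ᵣ B →* A' ≀ᵣ B' where
  toFun w := ⟨Φ w.left, ρ w.right⟩
  map_one' := by ext <;> simp
  map_mul' a b := by
    ext y
    · simp [h]
    · simp

@[simp] theorem wmap_left {A B A' B' : Type} [Group A] [Group B] [Group A'] [Group B']
    (ρ : B →* B') (Φ : (B → A) →* (B' → A')) (h) (w : A ≀ᵣ B) :
    (wmap ρ Φ h w).left = Φ w.left := rfl

@[simp] theorem wmap_right {A B A' B' : Type} [Group A] [Group B] [Group A'] [Group B']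
    (ρ : B →* B') (Φ : (B → A) →* (B' → A')) (h) (w : A ≀ᵣ B) :
    (wmap ρ Φ h w).right = ρ w.right := rfl

theorem wmap_bs {A B A' B' : Type} [Group A] [Group B] [Group A'] [Group B']
    (ρ : B →* B') (Φ : (B → A) →* (B' → A')) (h) (f : B → A) :
    wmap ρ Φ h (bs A B f) = bs A' B' (Φ f) := by
  ext <;> simp

theorem wmap_inl {A B A' B' : Type} [Group A] [Group B] [Group A'] [Group B']
    (ρ : B →* B') (Φ : (B → A) →* (B' → A')) (h) (b : B) :
    wmap ρ Φ h (inl b) = inl (ρ b) := by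
  ext <;> simp

/-- base change -/
def bmap {A A' : Type} [Group A] [Group A'] (φ : A →* A') (B : Type) [Group B] :
    A ≀ᵣ B →* A' ≀ᵣ B :=
  wmap (MonoidHom.id B) (φ.compLeft B) fun _ _ _ => rfl

theorem bmap_surj {A A' : Type} [Group A] [Group A'] (φ : A →* A') (hφ : Function.Surjective φ)
    (B : Type) [Group B] : Function.Surjective (bmap φ B) := by
  intro w
  choose s hs using hφ
  refine ⟨⟨fun b => s (w.left b), w.right⟩, ?_⟩
  ext b
  · exact hs _
  · rfl

theorem wr_mem {X Y : Cls} (hX : QV X) (hY : QV Y) {A B : Type} [Group A] [Group B] (hA : X A)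
    (hB : Y B) : mul X Y (A ≀ᵣ B) := by
  refine mul_of_hom hY rightHom hB (hX.resid _ fun g hg => ?_)
  have hr : ∀ x : (rightHom : A ≀ᵣ B →* B).ker, x.1.right = 1 := fun x => x.2
  have : g.1.left ≠ 1 := fun h => hg (Subtype.ext (by ext <;> simp [h, hr]))
  obtain ⟨b, hb⟩ := Function.ne_iff.mp this
  exact ⟨A, inferInstance, ⟨⟨fun x => x.1.left b, rfl⟩, fun x y => by simp [hr]⟩, hA, hb⟩

theorem kk {G D : Type} [Group G] [Group D] (φ : G →* D) (hφ : Function.Surjective φ) :
    ∃ κ : G →* φ.ker ≀ᵣ D, Function.Injective κ := by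
  choose s hs using hφ
  let κ : G →* φ.ker ≀ᵣ D :=
    { toFun := fun g => ⟨fun d => ⟨(s d)⁻¹ * g * s ((φ g)⁻¹ * d), by
        simp [MonoidHom.mem_ker, hs, mul_assoc]⟩, φ g⟩
      map_one' := by ext <;> simp
      map_mul' := fun g h => by ext <;> simp [mul_assoc] }
  refine ⟨κ, (injective_iff_map_eq_one κ).mpr fun g hg => ?_⟩
  have h1 : φ g = 1 := congrArg RegularWreathProduct.right hg
  have h2 : (s 1)⁻¹ * g * s ((φ g)⁻¹ * 1) = 1 :=
    congrArg (fun w : φ.ker ≀ᵣ D => (w.left 1 : G)) hg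
  rw [h1, inv_one, one_mul, mul_assoc, inv_mul_eq_one] at h2
  simpa using h2

/-- verbal subgroup -/
def V (X : Cls) (G : Type) [Group G] : Subgroup G :=
  Subgroup.closure {x | ∃ w ∈ R X F, ∃ g : F →* G, g w = x}

def Var (X : Cls) : Cls := fun G _ => ∀ w ∈ R X F, ∀ g : F →* G, g w = 1

theorem V_map {X : Cls} {G G' : Type} [Group G] [Group G'] (ψ : G →* G') {g : G}
    (hg : g ∈ V X G) : ψ g ∈ V X G' := by
  have : V X G ≤ (V X G').comap ψ := by
    rw [V, Subgroup.closure_le]
    rintro _ ⟨w, hw, g, rfl⟩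
    exact Subgroup.subset_closure ⟨w, hw, ψ.comp g, rfl⟩
  exact this hg

theorem lift_surj {G G' : Type} [Group G] [Group G'] (ψ : G →* G') (g' : F →* G')
    (hψ : ∀ i, ∃ x, ψ x = g' (FreeGroup.of i)) : ∃ g : F →* G, ψ.comp g = g' := by
  choose s hs using hψ
  exact ⟨FreeGroup.lift s, by ext i; simp [hs]⟩

theorem V_surj {X : Cls} {G G' : Type} [Group G] [Group G'] (ψ : G →* G')
    (hψ : Function.Surjective ψ) {y : G'} (hy : y ∈ V X G') : ∃ x ∈ V X G, ψ x = y := by
  have : V X G' ≤ (V X G).map ψ := by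
    rw [V, Subgroup.closure_le]
    rintro _ ⟨w, hw, g', rfl⟩
    obtain ⟨g, rfl⟩ := lift_surj ψ g' fun i => hψ _
    exact ⟨g w, Subgroup.subset_closure ⟨w, hw, g, rfl⟩, rfl⟩
  exact this hy

theorem V_le_R (X : Cls) (G : Type) [Group G] : V X G ≤ R X G := by
  rw [V, Subgroup.closure_le]
  rintro _ ⟨w, hw, g, rfl⟩
  exact R_map g hw

instance V_normal (X : Cls) (G : Type) [Group G] : (V X G).Normal :=
  ⟨fun _ hn g => V_map (MulAut.conj g).toMonoidHom hn⟩

theorem var_iff {X : Cls} {G : Type} [Group G] : Var X G ↔ ∀ g ∈ V X G, g = 1 := by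
  constructor
  · intro h
    have : V X G ≤ ⊥ := by
      rw [V, Subgroup.closure_le]
      rintro _ ⟨w, hw, g, rfl⟩
      exact h w hw g
    exact fun g hg => this hg
  · exact fun h w hw g => h _ (Subgroup.subset_closure ⟨w, hw, g, rfl⟩)

theorem le_var (X : Cls) : Le X (Var X) := fun G _ hG _ hw g => hw G g hG

theorem Var.sub {X : Cls} {G H : Type} [Group G] [Group H] (φ : G →* H)
    (hφ : Function.Injective φ) (hH : Var X H) : Var X G := fun w hw g =>
  hφ (by rw [map_one]; exact hH w hw (φ.comp g))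

theorem Var.surj {X : Cls} {G H : Type} [Group G] [Group H] (φ : G →* H)
    (hφ : Function.Surjective φ) (hG : Var X G) : Var X H := fun w hw g' => by
  obtain ⟨g, rfl⟩ := lift_surj φ g' fun i => hφ _
  simp [hG w hw g]

theorem Var.prod {X : Cls} {G H : Type} [Group G] [Group H] (hG : Var X G) (hH : Var X H) :
    Var X (G × H) := fun w hw g =>
  Prod.ext (hG w hw ((MonoidHom.fst G H).comp g)) (hH w hw ((MonoidHom.snd G H).comp g))

theorem hasLaw_iff {X : Cls} : HasLaw X ↔ ∃ w : F, w ≠ 1 ∧ w ∈ R X F := by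
  constructor
  · rintro ⟨w, hw, h⟩
    refine ⟨w, hw, fun H _ φ hH => ?_⟩
    have := h H hH (fun i => φ (FreeGroup.of i))
    rwa [show FreeGroup.lift (fun i => φ (FreeGroup.of i)) = φ by ext; simp] at this
  · rintro ⟨w, hw, h⟩
    exact ⟨w, hw, fun G _ hG g => h G _ hG⟩

theorem HasLaw.mono {X Y : Cls} (h : HasLaw Y) (hle : Le X Y) : HasLaw X := by
  obtain ⟨w, hw, h⟩ := h
  exact ⟨w, hw, fun G _ hG => h G (hle G hG)⟩

theorem free_retract {G : Type} [Group G] (w : FreeGroup G) :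
    ∃ (σ : FreeGroup G →* F) (τ : F →* FreeGroup G), τ (σ w) = w := by
  have : ∃ S : Finset G, ∀ φ : FreeGroup G →* FreeGroup G,
      (∀ x ∈ S, φ (FreeGroup.of x) = FreeGroup.of x) → φ w = w := by
    induction w using FreeGroup.induction_on with
    | C1 => exact ⟨∅, fun φ _ => map_one φ⟩
    | of x => exact ⟨{x}, fun φ h => h x (by simp)⟩
    | inv_of x _ => exact ⟨{x}, fun φ h => by rw [map_inv, h x (by simp)]⟩
    | mul u v hu hv =>
      obtain ⟨S, hS⟩ := hu
      obtain ⟨T, hT⟩ := hv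
      exact ⟨S ∪ T, fun φ h => by
        rw [map_mul, hS φ fun x hx => h x (by simp [hx]), hT φ fun x hx => h x (by simp [hx])]⟩
  obtain ⟨S, hS⟩ := this
  obtain ⟨e, d, hed⟩ := exists_code S
  exact ⟨FreeGroup.map e, FreeGroup.map d, hS ((FreeGroup.map d).comp (FreeGroup.map e))
    fun x hx => by simp [hed x hx]⟩

theorem Var.cover {X : Cls} (hX : QV X) {G : Type} [Group G] (hG : Var X G) :
    ∃ (B : Type) (_ : Group B) (π : B →* G), X B ∧ Function.Surjective π ∧
      (Finite G → Group.FG B) := by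
  let π : FreeGroup G →* G := FreeGroup.lift id
  have hle : R X (FreeGroup G) ≤ π.ker := fun w hw => by
    obtain ⟨σ, τ, h⟩ := free_retract w
    have := hG _ (R_map σ hw) (π.comp τ)
    rwa [MonoidHom.comp_apply, h] at this
  refine ⟨FreeGroup G ⧸ R X (FreeGroup G), inferInstance, QuotientGroup.lift _ π hle, hX.quot _,
    fun g => ⟨(FreeGroup.of g : FreeGroup G), by simp [π]⟩, fun _ => inferInstance⟩

theorem free_mem {X : Cls} (hX : QV X) (h : ¬ HasLaw X) (G : Type) [Group G] :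
    X (FreeGroup G) := by
  refine hX.of_R fun w hw => ?_
  obtain ⟨σ, τ, h1⟩ := free_retract w
  by_contra hne
  refine h (hasLaw_iff.mpr ⟨σ w, fun h2 => hne ?_, R_map σ hw⟩)
  rw [← h1, h2, map_one]

def NoLaw (Y : Cls) (n : ℕ) : Prop :=
  ∀ L : List (ℕ × Bool), FreeGroup.IsReduced L → L ≠ [] → L.length ≤ n →
    ∃ (H : Type) (_ : Group H) (g : F →* H), Y H ∧ g (FreeGroup.mk L) ≠ 1

theorem edge_free {A H : Type} [Group A] [Group H] (g0 : F →* H) (g : F →* A ≀ᵣ H)
    (hr : ∀ w, (g w).right = g0 w) (x1 : ℕ) (y1 : H)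
    (hl : ∀ x y, ¬ (x = x1 ∧ y = y1) → (g (FreeGroup.of x)).left y = 1)
    (L : List (ℕ × Bool)) (y : H)
    (h : ∀ L1 b L2, L = L1 ++ (x1, b) :: L2 → (if b = true then (g0 (FreeGroup.mk L1))⁻¹ * y
      else g0 (FreeGroup.of x1) * ((g0 (FreeGroup.mk L1))⁻¹ * y)) ≠ y1) :
    (g (FreeGroup.mk L)).left y = 1 := by
  induction L generalizing y with
  | nil =>
    rw [← FreeGroup.one_eq_mk, map_one]
    rfl
  | cons p L ih =>
    have e : FreeGroup.mk (p :: L) = FreeGroup.mk [p] * FreeGroup.mk L := by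
      rw [FreeGroup.mul_mk]; rfl
    rw [e, map_mul, mul_left, Pi.mul_apply, ih, mul_one]
    · obtain ⟨x, b⟩ := p
      cases b
      · have e2 : FreeGroup.mk [(x, false)] = (FreeGroup.of x)⁻¹ := rfl
        rw [e2, map_inv, inv_left]
        beta_reduce
        rw [Pi.inv_apply, hl, inv_one]
        rintro ⟨rfl, h2⟩
        refine h [] false L rfl ?_
        rw [← FreeGroup.one_eq_mk, map_one, ← h2, hr]
        simp
      · have e2 : FreeGroup.mk [(x, true)] = FreeGroup.of x := rfl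
        rw [e2, hl]
        rintro ⟨rfl, h2⟩
        refine h [] true L rfl ?_
        rw [← FreeGroup.one_eq_mk, map_one, ← h2]
        simp
    · intro L1 b L2 hL
      have := h (p :: L1) b L2 (by rw [hL]; rfl)
      have e3 : FreeGroup.mk (p :: L1) = FreeGroup.mk [p] * FreeGroup.mk L1 := by
        rw [FreeGroup.mul_mk]; rfl
      rw [e3, map_mul, mul_inv_rev, mul_assoc] at this
      rwa [hr]

theorem girth {Y : Cls} (h1 : Y Unit)
    (hprod : ∀ (G H : Type) [Group G] [Group H], Y G → Y H → Y (G × H)) {n : ℕ} (h : NoLaw Y n)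
    {A : Type} [Group A] {a : A} (ha : a ≠ 1) (L : List (ℕ × Bool)) (hL : FreeGroup.IsReduced L)
    (hne : L ≠ []) (hlen : L.length ≤ n + 1) :
    ∃ (H : Type) (_ : Group H) (g : F →* A ≀ᵣ H), Y H ∧ g (FreeGroup.mk L) ≠ 1 := by
  have hsim : ∀ l : List (List (ℕ × Bool)),
      ∃ (H : Type) (_ : Group H) (g : F →* H), Y H ∧ ∀ K ∈ l, FreeGroup.IsReduced K → K ≠ [] →
        K.length ≤ n → g (FreeGroup.mk K) ≠ 1 := by
    intro l
    induction l with
    | nil => exact ⟨Unit, inferInstance, 1, h1, by simp⟩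
    | cons K l ih =>
      obtain ⟨H, _, g, hH, hg⟩ := ih
      by_cases hK : FreeGroup.IsReduced K ∧ K ≠ [] ∧ K.length ≤ n
      · obtain ⟨H', _, g', hH', hg'⟩ := h K hK.1 hK.2.1 hK.2.2
        refine ⟨H × H', inferInstance, g.prod g', hprod _ _ hH hH', fun K' hK' a b c e => ?_⟩
        rcases List.mem_cons.mp hK' with rfl | hK'
        · exact hg' (congrArg Prod.snd e)
        · exact hg K' hK' a b c (congrArg Prod.fst e)
      · refine ⟨H, inferInstance, g, hH, fun K' hK' a b c => ?_⟩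
        rcases List.mem_cons.mp hK' with rfl | hK'
        · exact absurd ⟨a, b, c⟩ hK
        · exact hg K' hK' a b c
  obtain ⟨H, _, g0, hH, hg0⟩ := hsim L.sublists
  have hinf : ∀ K, K <:+: L → K ≠ [] → K.length < L.length → g0 (FreeGroup.mk K) ≠ 1 :=
    fun K hK h2 h3 => hg0 K (List.mem_sublists.mpr hK.sublist) (by
      obtain ⟨s, t, rfl⟩ := hK
      exact hL.left_of_append.right_of_append) h2 (by omega)
  obtain ⟨⟨x1, e⟩, L', rfl⟩ := List.exists_cons_of_ne_nil hne
  let y1 : H := if e = true then 1 else g0 (FreeGroup.of x1)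
  let g : F →* A ≀ᵣ H := FreeGroup.lift fun x =>
    ⟨fun y => if x = x1 ∧ y = y1 then a else 1, g0 (FreeGroup.of x)⟩
  have hr : ∀ w, (g w).right = g0 w := fun w => by
    have : rightHom.comp g = g0 := by ext i; simp [g]
    rw [← this]; rfl
  have hl : ∀ x y, (g (FreeGroup.of x)).left y = if x = x1 ∧ y = y1 then a else 1 := by
    intro x y; simp [g]
  refine ⟨H, inferInstance, g, hH, fun hg => ?_⟩
  have e1 : ∀ K, FreeGroup.mk ((x1, e) :: K) = FreeGroup.mk [(x1, e)] * FreeGroup.mk K := by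
    intro K; rw [FreeGroup.mul_mk]; rfl
  have h2 := congrArg (fun w : A ≀ᵣ H => w.left 1) hg
  rw [e1] at h2
  simp only [map_mul, mul_left, Pi.mul_apply, one_left, Pi.one_apply] at h2
  rw [edge_free g0 g hr x1 y1 (fun x y hxy => by rw [hl, if_neg hxy]) L', mul_one] at h2
  · cases e
    · have e2 : FreeGroup.mk [(x1, false)] = (FreeGroup.of x1)⁻¹ := rfl
      rw [e2, map_inv, inv_left] at h2
      beta_reduce at h2
      rw [Pi.inv_apply, hl, hr, if_pos (by simp [y1])] at h2
      exact ha (inv_eq_one.mp h2)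
    · have e2 : FreeGroup.mk [(x1, true)] = FreeGroup.of x1 := rfl
      rw [e2, hl, if_pos (by simp [y1])] at h2
      exact ha h2
  · intro L1 b L2 hL'
    subst hL'
    have hA : g0 (FreeGroup.mk [(x1, e)]) * g0 (FreeGroup.mk L1) ≠ 1 := by
      rw [← map_mul, ← e1]
      exact hinf _ ⟨[], (x1, b) :: L2, by simp⟩ (by simp) (by simp)
    have hB : e ≠ b → g0 (FreeGroup.mk L1) ≠ 1 := by
      intro heb
      refine hinf _ ⟨[(x1, e)], (x1, b) :: L2, by simp⟩ ?_ (by simp)
      rintro rfl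
      exact heb ((FreeGroup.isReduced_cons_cons.mp hL).1 rfl)
    rw [hr, mul_one]
    cases e <;> cases b
    · have e2 : FreeGroup.mk [(x1, false)] = (FreeGroup.of x1)⁻¹ := rfl
      rw [e2, map_inv] at hA ⊢
      simp only [y1, Bool.false_eq_true, if_false, inv_inv]
      intro h3
      apply hA
      have h4 : (g0 (FreeGroup.mk L1))⁻¹ * g0 (FreeGroup.of x1) = 1 := by
        simpa using h3
      rw [inv_mul_eq_one.mp h4, inv_mul_cancel]
    · have e2 : FreeGroup.mk [(x1, false)] = (FreeGroup.of x1)⁻¹ := rfl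
      rw [e2, map_inv]
      simp only [y1, Bool.false_eq_true, if_false, if_true, inv_inv]
      intro h3
      exact hB (by simp) (by simpa using h3)
    · have e2 : FreeGroup.mk [(x1, true)] = FreeGroup.of x1 := rfl
      rw [e2]
      simp only [y1, Bool.false_eq_true, if_false, if_true]
      intro h3
      refine hB (by simp) ?_
      rw [← mul_assoc, mul_inv_eq_one] at h3
      simpa using h3
    · have e2 : FreeGroup.mk [(x1, true)] = FreeGroup.of x1 := rfl
      rw [e2] at hA ⊢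
      simp only [y1, if_true]
      intro h3
      apply hA
      rw [← mul_inv_rev, inv_eq_one] at h3
      exact h3

theorem NoLaw.word {Y : Cls} {n : ℕ} (h : NoLaw Y n) {w : F} (hw : w ≠ 1)
    (hn : w.toWord.length ≤ n) :
    ∃ (H : Type) (_ : Group H) (g : F →* H), Y H ∧ g w ≠ 1 := by
  have := h w.toWord FreeGroup.isReduced_toWord (by simpa using hw) hn
  rwa [FreeGroup.mk_toWord] at this

theorem noLaw_zero (Y : Cls) : NoLaw Y 0 := fun _ _ h1 h2 =>
  absurd (List.length_eq_zero_iff.mp (Nat.le_zero.mp h2)) h1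

abbrev C (p : ℕ) : Type := Multiplicative (ZMod p)

theorem card_C (p : ℕ) [Fact p.Prime] : Nat.card (C p) = p := by
  simp [C]

theorem wr_pgroup {p : ℕ} [Fact p.Prime] {P : Type} [Group P] [Finite P] (h : IsPGroup p P) :
    IsPGroup p (C p ≀ᵣ P) := by
  obtain ⟨n, hn⟩ := IsPGroup.iff_card.mp h
  refine IsPGroup.of_card (n := p ^ n + n) ?_
  rw [RegularWreathProduct.card, card_C, hn, pow_add]

theorem exists_P {Y : Cls} (hY : HasLaw Y) (p : ℕ) [Fact p.Prime] :
    ∃ (P : Type) (_ : Group P) (_ : Finite P), IsPGroup p P ∧ Var Y P ∧ ¬ Var Y (C p ≀ᵣ P) := by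
  by_contra hne
  let K : Cls := fun G _ => Finite G ∧ IsPGroup p G ∧ Var Y G
  have hK : ∀ n, NoLaw K n := by
    intro n
    induction n with
    | zero => exact noLaw_zero K
    | succ n ih =>
      intro L h1 h2 h3
      obtain ⟨H, _, g, ⟨hf, hp, hv⟩, hg⟩ := girth (Y := K)
        ⟨inferInstance, fun g => ⟨0, rfl⟩, fun _ _ _ => rfl⟩
        (fun G H _ _ ⟨a1, a2, a3⟩ ⟨b1, b2, b3⟩ => ⟨inferInstance, by
          obtain ⟨n, hn⟩ := IsPGroup.iff_card.mp a2
          obtain ⟨m, hm⟩ := IsPGroup.iff_card.mp b2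
          exact IsPGroup.of_card (n := n + m) (by rw [Nat.card_prod, hn, hm, pow_add]),
          a3.prod b3⟩) ih (A := C p) (a := Multiplicative.ofAdd 1) (by simp) L h1 h2 h3
      refine ⟨C p ≀ᵣ H, inferInstance, g, ⟨inferInstance, wr_pgroup hp, ?_⟩, hg⟩
      by_contra h4
      exact hne ⟨H, inferInstance, hf, hp, hv, h4⟩
  obtain ⟨w, hw, hw'⟩ := hasLaw_iff.mp hY
  obtain ⟨H, _, g, hH, hg⟩ := (hK _).word hw le_rfl
  exact hg (hH.2.2 w hw' g)

theorem key_K {X : Cls} (hX : HasLaw X) (p : ℕ) [hp : Fact p.Prime]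
    (h : ∀ (N : Type) [Group N] [Finite N], Var X N → Var X (N ≀ᵣ C p)) : False := by
  have hall : ∀ n, ∀ (P : Type) [Group P] [Finite P], Nat.card P = p ^ n → Var X P := by
    intro n
    induction n with
    | zero =>
      intro P _ _ hP
      have : Subsingleton P := (Nat.card_eq_one_iff_unique.mp (by simpa using hP)).1
      exact fun _ _ _ => Subsingleton.elim _ _
    | succ n ih =>
      intro P _ _ hP
      obtain ⟨N, hN⟩ := Sylow.exists_subgroup_card_pow_prime (G := P) p (n := n)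
        (by rw [hP]; exact pow_dvd_pow _ (Nat.le_succ n))
      have hi : N.index = p := by
        have := N.card_mul_index
        rw [hN, hP, pow_succ] at this
        exact Nat.eq_of_mul_eq_mul_left (pow_pos hp.out.pos n) this
      have : N.Normal := Subgroup.normal_of_index_eq_minFac_card (by
        rw [hi, hP, Nat.Prime.pow_minFac hp.out (Nat.succ_ne_zero n)])
      let e : P ⧸ N ≃* C p := mulEquivOfPrimeCardEq (p := p) (by rw [← hi]; rfl) (card_C p)
      let φ : P →* C p := e.toMonoidHom.comp (QuotientGroup.mk' N)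
      have hφ : Function.Surjective φ := e.surjective.comp (QuotientGroup.mk'_surjective N)
      have hk : φ.ker = N := by
        ext x
        simp [φ]
      obtain ⟨κ, hκ⟩ := kk φ hφ
      exact Var.sub κ hκ (h _ (ih _ (by rw [hk, hN])))
  obtain ⟨P, _, _, h1, _, h3⟩ := exists_P hX p
  obtain ⟨n, hn⟩ := IsPGroup.iff_card.mp (wr_pgroup h1)
  exact h3 (hall n _ hn)

theorem pullback {X : Cls} {A T D : Type} [Group A] [Group T] [Group D] (π : T →* D)
    (hπ : Function.Surjective π) {w : A ≀ᵣ D} (hw : w ∈ V X (A ≀ᵣ D)) :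
    ∃ τ : T, π τ = w.right ∧ (⟨fun t => w.left (π t), τ⟩ : A ≀ᵣ T) ∈ V X (A ≀ᵣ T) := by
  let U : Subgroup ((A ≀ᵣ D) × T) :=
    (rightHom.comp (MonoidHom.fst _ _)).eqLocus (π.comp (MonoidHom.snd _ _))
  have hU : ∀ u : U, u.1.1.right = π u.1.2 := fun u => u.2
  let ι : U →* A ≀ᵣ T :=
    { toFun := fun u => ⟨fun t => u.1.1.left (π t), u.1.2⟩
      map_one' := rfl
      map_mul' := fun a b => by ext <;> simp [hU] }
  obtain ⟨u, hu, rfl⟩ := V_surj ((MonoidHom.fst _ _).comp U.subtype) (fun w => by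
    obtain ⟨τ, hτ⟩ := hπ w.right
    exact ⟨⟨(w, τ), hτ.symm⟩, rfl⟩) hw
  exact ⟨u.1.2, (hU u).symm, V_map ι hu⟩

theorem Var.pullback {X : Cls} {A T D : Type} [Group A] [Group T] [Group D] (π : T →* D)
    (hπ : Function.Surjective π) (h : Var X (A ≀ᵣ T)) : Var X (A ≀ᵣ D) := by
  rw [var_iff] at h ⊢
  intro w hw
  obtain ⟨τ, h1, h2⟩ := MP_5bbf46_al.pullback π hπ hw
  have h3 := h _ h2
  ext d
  · obtain ⟨t, rfl⟩ := hπ d
    exact congrArg (fun w : A ≀ᵣ T => w.left t) h3
  · have : τ = 1 := congrArg RegularWreathProduct.right h3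
    rw [← h1, this, map_one]; rfl

theorem lift_right {A T : Type} [Group A] [Group T] (g : ℕ → A ≀ᵣ T) (w : F) :
    (FreeGroup.lift g w).right = FreeGroup.lift (fun i => (g i).right) w := by
  have : rightHom.comp (FreeGroup.lift g) = FreeGroup.lift (fun i => (g i).right) := by
    ext i; simp
  rw [← this]; rfl

theorem locality {A T : Type} [Group A] [Group T] (g : ℕ → A ≀ᵣ T) (w : F) (y : T) :
    ∃ S : Finset T, ∀ g' : ℕ → A ≀ᵣ T, (∀ i, (g' i).right = (g i).right) →
      (∀ i, ∀ x ∈ S, (g' i).left x = (g i).left x) →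
      (FreeGroup.lift g' w).left y = (FreeGroup.lift g w).left y := by
  induction w using FreeGroup.induction_on generalizing y with
  | C1 => exact ⟨∅, fun g' _ _ => by simp⟩
  | of i => exact ⟨{y}, fun g' _ h => by simpa using h i y (by simp)⟩
  | inv_of i _ =>
    refine ⟨{(g i).right * y}, fun g' h1 h => ?_⟩
    simpa [h1] using h i _ (by simp)
  | mul u v hu hv =>
    obtain ⟨S, hS⟩ := hu y
    obtain ⟨S', hS'⟩ := hv ((FreeGroup.lift g u).right⁻¹ * y)
    refine ⟨S ∪ S', fun g' h1 h => ?_⟩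
    have e : (FreeGroup.lift g' u).right = (FreeGroup.lift g u).right := by
      rw [lift_right, lift_right, funext h1]
    simp only [map_mul, mul_left, Pi.mul_apply, e]
    rw [hS g' h1 fun i x hx => h i x (by simp [hx]), hS' g' h1 fun i x hx => h i x (by simp [hx])]

theorem Var.local {X : Cls} {U A T : Type} [Group U] [Group A] [Group T] (ψ : U →* A ≀ᵣ T)
    (hψ : ∀ w : A ≀ᵣ T, (Function.mulSupport w.left).Finite → ∃ u, ψ u = w) (hU : Var X U) :
    Var X (A ≀ᵣ T) := by
  intro w hw g0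
  obtain ⟨g, rfl⟩ := FreeGroup.lift.surjective g0
  have key : ∀ y : T, (FreeGroup.lift g w).left y = 1 ∧ (FreeGroup.lift g w).right = 1 := by
    intro y
    obtain ⟨S, hS⟩ := locality g w y
    let g' : ℕ → A ≀ᵣ T := fun i => ⟨fun x => if x ∈ S then (g i).left x else 1, (g i).right⟩
    obtain ⟨u, hu⟩ := lift_surj ψ (FreeGroup.lift g') fun i => hψ _ (by
      refine S.finite_toSet.subset fun x hx => ?_
      by_contra h
      exact hx (by simp only [FreeGroup.lift_apply_of, g']; exact if_neg h))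
    have h1 : FreeGroup.lift g' w = 1 := by
      rw [← hu, MonoidHom.comp_apply, hU w hw u, map_one]
    constructor
    · rw [← hS g' (fun _ => rfl) (fun i x hx => if_pos hx), h1]; rfl
    · have := congrArg RegularWreathProduct.right h1
      rw [lift_right] at this ⊢
      exact this
  ext y
  · exact (key y).1
  · exact (key 1).2

end Pool.Agent.H.MP_5bbf46_al
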