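import Pool.Agent.H.MP_5bbf46_al.B

namespace Pool.Agent.H.MP_5bbf46_al

open Classical RegularWreathProduct

abbrev Z : Type := Multiplicative ℤ

def W (Y : Cls) (A B : Type) [Group A] [Group B] : Subgroup (B → A) :=
  (V Y (A ≀ᵣ B)).comap (bs A B)

theorem mem_W {Y : Cls} {A B : Type} [Group A] [Group B] {f : B → A} :
    f ∈ W Y A B ↔ bs A B f ∈ V Y (A ≀ᵣ B) := Iff.rfl

instance W_normal (Y : Cls) (A B : Type) [Group A] [Group B] : (W Y A B).Normal :=
  Subgroup.Normal.comap inferInstance _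

def J (Y : Cls) (B : Type) [Group B] (h : B → ℤ) : Prop :=
  (fun b => Multiplicative.ofAdd (h b)) ∈ W Y Z B

theorem J.add {Y : Cls} {B : Type} [Group B] {h k : B → ℤ} (h1 : J Y B h) (h2 : J Y B k) :
    J Y B (fun b => h b + k b) := (W Y Z B).mul_mem h1 h2

theorem J_zero (Y : Cls) (B : Type) [Group B] : J Y B (fun _ => 0) := (W Y Z B).one_mem

theorem J.tensor {Y : Cls} {A B B' : Type} [Group A] [Group B] [Group B'] (ρ : B →* B')
    (π : B' → B) (u : B' → A) (hπ : ∀ β y, π ((ρ β)⁻¹ * y) = β⁻¹ * π y)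
    (hu : ∀ β y, u ((ρ β)⁻¹ * y) = u y) {h : B → ℤ} (hh : J Y B h) :
    (fun y => u y ^ h (π y)) ∈ W Y A B' := by
  let Φ : (B → Z) →* (B' → A) :=
    { toFun := fun f y => u y ^ (f (π y)).toAdd
      map_one' := by ext; simp
      map_mul' := fun f g => by ext; simp [zpow_add] }
  have := V_map (wmap ρ Φ (fun β f y => by simp [Φ, hπ, hu])) hh
  rw [wmap_bs] at this
  exact this

theorem J.fst {Y : Cls} {A B B' : Type} [Group A] [Group B] [Group B'] (u : B' → A)
    {h : B → ℤ} (hh : J Y B h) : (fun y : B × B' => u y.2 ^ h y.1) ∈ W Y A (B × B') :=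
  hh.tensor (MonoidHom.inl B B') Prod.fst (fun y => u y.2) (fun _ _ => by simp)
    (fun _ _ => by simp)

theorem J.snd {Y : Cls} {A B B' : Type} [Group A] [Group B] [Group B'] (u : B' → A)
    {h : B → ℤ} (hh : J Y B h) : (fun y : B' × B => u y.1 ^ h y.2) ∈ W Y A (B' × B) :=
  hh.tensor (MonoidHom.inr B' B) Prod.snd (fun y => u y.1) (fun _ _ => by simp)
    (fun _ _ => by simp)

theorem J.fst' {Y : Cls} {B B' : Type} [Group B] [Group B'] (k : B' → ℤ)
    {h : B → ℤ} (hh : J Y B h) : J Y (B × B') (fun y => h y.1 * k y.2) := by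
  have := hh.fst (fun b => Multiplicative.ofAdd (k b))
  simp only [← ofAdd_zsmul, smul_eq_mul] at this
  exact this

theorem J.snd' {Y : Cls} {B B' : Type} [Group B] [Group B'] (k : B' → ℤ)
    {h : B → ℤ} (hh : J Y B h) : J Y (B' × B) (fun y => h y.2 * k y.1) := by
  have := hh.snd (fun b => Multiplicative.ofAdd (k b))
  simp only [← ofAdd_zsmul, smul_eq_mul] at this
  exact this

/-- slice at the point `m` -/
noncomputable def slice (A B : Type) {B' : Type} [Group A] (m : B') : (B → A) →* (B × B' → A) where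
  toFun f y := if y.2 = m then f y.1 else 1
  map_one' := by ext; simp
  map_mul' f g := by
    ext y
    simp only [Pi.mul_apply]
    split_ifs <;> simp

theorem slice_apply {A B B' : Type} [Group A] (m : B') (f : B → A) (y : B × B') :
    slice A B m f y = if y.2 = m then f y.1 else 1 := rfl

theorem W_slice {Y : Cls} {A B B' : Type} [Group A] [Group B] [Group B'] (m : B') {f : B → A}
    (hf : f ∈ W Y A B) : slice A B m f ∈ W Y A (B × B') := by
  have := V_map (wmap (MonoidHom.inl B B') (slice A B m) (fun β f y => by simp [slice_apply])) hf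
  rw [wmap_bs] at this
  exact this

theorem V_right {Y : Cls} {A B : Type} [Group A] [Group B] (hB : Var Y B) {w : A ≀ᵣ B}
    (hw : w ∈ V Y (A ≀ᵣ B)) : w.right = 1 := var_iff.mp hB _ (V_map rightHom hw)

def F2 (Y : Cls) (m : ℕ) : Prop :=
  ∃ (B : Type) (_ : Group B) (h : B → ℤ), Y B ∧ J Y B h ∧ (Set.range h).Finite ∧
    ∀ b, (m : ℤ) ∣ 1 - h b

theorem F2_prime {Y : Cls} (hY : QV Y) (hl : HasLaw Y) (p : ℕ) [hp : Fact p.Prime] : F2 Y p := by
  obtain ⟨P, _, _, h1, h2, h3⟩ := exists_P hl p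
  have hG := wr_pgroup h1
  have hN : Nontrivial (V Y (C p ≀ᵣ P)) := by
    by_contra h
    rw [not_nontrivial_iff_subsingleton] at h
    exact h3 (var_iff.mpr fun g hg => congrArg Subtype.val (Subsingleton.elim (⟨g, hg⟩ : V Y _) 1))
  have hdvd : p ∣ Nat.card (V Y (C p ≀ᵣ P)) := by
    obtain ⟨n, hn, h⟩ := (hG.to_subgroup (V Y (C p ≀ᵣ P))).nontrivial_iff_card.mp hN
    rw [h]
    exact dvd_pow_self _ hn.ne'
  obtain ⟨b, hb, hb1⟩ := (hG.of_equiv ConjAct.toConjAct).exists_fixed_point_of_prime_dvd_card_of_fixed_point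
    (V Y (C p ≀ᵣ P)) hdvd (a := 1) (fun g => smul_one g)
  have hr : b.1.right = 1 := V_right h2 b.2
  have hc : ∀ x, b.1.left x = b.1.left 1 := by
    intro x
    have h4 : inl x * b.1 * (inl x)⁻¹ = b.1 :=
      congrArg Subtype.val (hb (ConjAct.toConjAct (inl x)))
    have h5 := congrArg (fun w : C p ≀ᵣ P => w.left x) h4
    simpa using h5.symm
  have hc1 : (b.1.left 1).toAdd ≠ 0 := by
    intro h
    apply hb1
    ext x
    · change (1 : C p) = b.1.left x
      rw [hc x]
      exact (toAdd_eq_zero.mp h).symm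
    · exact hr.symm
  have hb2 : bs (C p) P (fun _ => Multiplicative.ofAdd 1) ∈ V Y (C p ≀ᵣ P) := by
    have := (V Y (C p ≀ᵣ P)).pow_mem b.2 ((b.1.left 1).toAdd⁻¹).val
    rw [eq_bs hr, ← map_pow] at this
    convert this using 2
    ext x
    rw [Pi.pow_apply, bs_left, hc x]
    simp [hc1]
  let φ : Z →* C p := (Int.castAddHom (ZMod p)).toMultiplicative
  have hφ : Function.Surjective φ := fun c => by
    obtain ⟨z, hz⟩ := ZMod.intCast_surjective c.toAdd
    exact ⟨Multiplicative.ofAdd z, by simp [φ, hz]⟩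
  obtain ⟨w, hw, hw'⟩ := V_surj (bmap φ P) (bmap_surj φ hφ P) hb2
  obtain ⟨B, _, π, hB, hπ, -⟩ := h2.cover hY
  obtain ⟨τ, -, hτ⟩ := pullback π hπ hw
  have hτ1 : τ = 1 := V_right (le_var Y B hB) hτ
  subst hτ1
  refine ⟨B, inferInstance, fun b => (w.left (π b)).toAdd, hB, hτ, ?_, fun b => ?_⟩
  · refine (Set.finite_range fun x : P => (w.left x).toAdd).subset ?_
    rintro _ ⟨b, rfl⟩
    exact ⟨π b, rfl⟩
  · have h6 : φ (w.left (π b)) = Multiplicative.ofAdd 1 :=
      congrArg (fun w : C p ≀ᵣ P => w.left (π b)) hw'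
    rw [← ZMod.intCast_zmod_eq_zero_iff_dvd]
    have h7 : (((w.left (π b)).toAdd : ℤ) : ZMod p) = 1 := congrArg Multiplicative.toAdd h6
    push_cast
    rw [h7, sub_self]

theorem F2_all {Y : Cls} (hY : QV Y) (hl : HasLaw Y) (m : ℕ) (hm : m ≠ 0) : F2 Y m := by
  induction m using induction_on_primes with
  | zero => exact absurd rfl hm
  | one => exact ⟨Unit, inferInstance, fun _ => 0, hY.triv _, J_zero Y _, Set.finite_range _,
      fun _ => by simp⟩
  | prime_mul p a hp ih =>
    have := Fact.mk hp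
    obtain ⟨B1, _, h1, a1, a2, a3, a4⟩ := F2_prime hY hl p
    obtain ⟨B2, _, h2, b1, b2, b3, b4⟩ := ih (right_ne_zero_of_mul hm)
    refine ⟨B1 × B2, inferInstance, fun y => h1 y.1 * 1 + h2 y.2 * (1 - h1 y.1), hY.prod a1 b1,
      (a2.fst' fun _ => 1).add (b2.snd' fun b => 1 - h1 b), ?_, fun y => ?_⟩
    · refine (Set.Finite.image2 (fun s t => s * 1 + t * (1 - s)) a3 b3).subset ?_
      rintro _ ⟨y, rfl⟩
      exact ⟨_, ⟨y.1, rfl⟩, _, ⟨y.2, rfl⟩, rfl⟩
    · rw [show 1 - (h1 y.1 * 1 + h2 y.2 * (1 - h1 y.1)) = (1 - h1 y.1) * (1 - h2 y.2) by ring]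
      push_cast
      exact mul_dvd_mul (a4 _) (b4 _)

theorem F1 {Y : Cls} (hY : QV Y) (hl : HasLaw Y) :
    ∃ (B : Type) (_ : Group B) (f : B → ℤ), Y B ∧ J Y B f ∧ f 1 = 1 := by
  obtain ⟨B1, _, h1, a1, a2, -, a4⟩ := F2_all hY hl 2 (by norm_num)
  have hd : h1 1 ≠ 0 := fun h => by
    have := a4 1
    rw [h] at this
    norm_num at this
  obtain ⟨B2, _, h2, b1, b2, -, b4⟩ := F2_all hY hl (h1 1).natAbs (Int.natAbs_ne_zero.mpr hd)
  obtain ⟨k, hk⟩ := Int.natAbs_dvd.mp (b4 1)
  refine ⟨B1 × B2, inferInstance, fun y => h1 y.1 * k + h2 y.2 * 1, hY.prod a1 b1,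
    (a2.fst' fun _ => k).add (b2.snd' fun _ => 1), ?_⟩
  simp only [Prod.fst_one, Prod.snd_one]
  linarith

theorem L_torsion {Y : Cls} (hY : QV Y) (hl : HasLaw Y) (A : Type) [Group A] (m : ℕ)
    (hm : m ≠ 0) : ∃ (B : Type) (_ : Group B) (θ : A →* (B → A)), Y B ∧ Function.Injective θ ∧
      ∀ a, a ^ m ∈ commutator A → θ a ∈ W Y A B := by
  obtain ⟨B0, _, h, a1, a2, a3, a4⟩ := F2_all hY hl m hm
  obtain ⟨B1, _, f, b1, b2, b3⟩ := F1 hY hl
  let ind : (B0 → Prop) → A →* (B0 → A) := fun S =>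
    { toFun := fun c b => if S b then c else 1
      map_one' := by ext; simp
      map_mul' := fun c d => by
        ext b
        simp only [Pi.mul_apply]
        split_ifs <;> simp }
  have hind : ∀ S c b, ind S c b = if S b then c else 1 := fun _ _ _ => rfl
  have hcomm : ∀ S, commutator A ≤
      (W Y A (B0 × B1)).comap ((slice A B0 (1 : B1)).comp (ind S)) := by
    intro S
    rw [commutator_eq_closure, Subgroup.closure_le]
    rintro _ ⟨x, y, rfl⟩
    have h1 := b2.snd (A := A) (B' := B0) fun _ => x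
    have h2 := (W Y A (B0 × B1)).mul_mem h1 ((W_normal Y A (B0 × B1)).conj_mem _
      ((W Y A (B0 × B1)).inv_mem h1) (slice A B0 (1 : B1) (ind S y)))
    change slice A B0 (1 : B1) (ind S (x * y * x⁻¹ * y⁻¹)) ∈ W Y A (B0 × B1)
    convert h2 using 1
    ext z
    simp only [slice_apply, hind, Pi.mul_apply, Pi.inv_apply]
    split_ifs with h3 h4
    · rw [h3, b3, zpow_one]
      simp only [mul_assoc]
    · simp
    · simp
  have hfin : ∀ s : Finset A, (∀ c ∈ s, c ∈ commutator A) → ∀ z : B0 → A,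
      (∀ b, z b ∈ s ∨ z b = 1) → slice A B0 (1 : B1) z ∈ W Y A (B0 × B1) := by
    intro s
    induction s using Finset.induction_on with
    | empty =>
      intro _ z hz
      have : z = 1 := funext fun b => by simpa using hz b
      rw [this, map_one]
      exact one_mem _
    | insert c s _ ih =>
      intro hs z hz
      have e : z = ind (fun b => z b = c) c * fun b => if z b = c then 1 else z b := by
        ext b
        simp only [Pi.mul_apply, hind]
        split_ifs with h1 <;> simp [h1]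
      rw [e, map_mul]
      refine mul_mem (hcomm _ (hs c (Finset.mem_insert_self _ _))) (ih
        (fun c hc => hs c (Finset.mem_insert_of_mem hc)) _ fun b => ?_)
      split_ifs with h1
      · exact Or.inr rfl
      · simpa [h1] using hz b
  refine ⟨B0 × B1, inferInstance, (slice A B0 (1 : B1)).comp (ind fun _ => True), hY.prod a1 b1,
    fun x y hxy => ?_, fun a ha => ?_⟩
  · simpa [slice_apply, hind] using congrFun hxy (1, 1)
  · have h1 := a2.fst (A := A) (B' := B1) fun β => if β = 1 then a else 1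
    have h2 := hfin (a3.toFinset.image fun t => a ^ (1 - t)) (by
      intro c hc
      obtain ⟨t, ht, rfl⟩ := Finset.mem_image.mp hc
      obtain ⟨b, rfl⟩ := a3.mem_toFinset.mp ht
      obtain ⟨k, hk⟩ := a4 b
      rw [hk, zpow_mul, zpow_natCast]
      exact zpow_mem ha k) (fun b => a ^ (1 - h b))
      fun b => Or.inl (Finset.mem_image_of_mem _ (a3.mem_toFinset.mpr ⟨b, rfl⟩))
    convert mul_mem h2 h1 using 1
    ext z
    simp only [MonoidHom.comp_apply, slice_apply, hind, Pi.mul_apply]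
    split_ifs
    · rw [← zpow_add]; simp
    · simp

theorem L_free {Y : Cls} (hY : QV Y) (hl : HasLaw Y) {A B : Type} [Group A] [Group B] (hB : Y B)
    (θ : A →* (B → A)) (hθ : Function.Injective θ) (α : A →* Z) (a0 : A)
    (h0 : α a0 = Multiplicative.ofAdd 1) :
    ∃ (B' : Type) (_ : Group B') (θ' : A →* (B' → A)), Y B' ∧ Function.Injective θ' ∧
      θ' a0 ∈ W Y A B' ∧ ∀ a, α a = 1 → θ a ∈ W Y A B → θ' a ∈ W Y A B' := by
  obtain ⟨B1, _, f, b1, b2, b3⟩ := F1 hY hl
  let θ' : A →* (B × B1 → A) :=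
    { toFun := fun a y => if y.2 = 1 then θ a y.1 else θ a0 y.1 ^ ((α a).toAdd * f y.2)
      map_one' := by ext; simp
      map_mul' := fun c d => by
        ext b
        simp only [Pi.mul_apply, map_mul, toAdd_mul, add_mul, zpow_add]
        split_ifs <;> rfl }
  have hθ' : ∀ a y, θ' a y =
    if y.2 = 1 then θ a y.1 else θ a0 y.1 ^ ((α a).toAdd * f y.2) := fun _ _ => rfl
  refine ⟨B × B1, inferInstance, θ', hY.prod hB b1, fun x y hxy => hθ (funext fun b => ?_), ?_,
    fun a ha hW => ?_⟩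
  · simpa [hθ'] using congrFun hxy (b, 1)
  · convert b2.snd (θ a0) using 1
    ext y
    rw [hθ', h0]
    split_ifs with h1
    · rw [h1, b3, zpow_one]
    · simp
  · convert W_slice (1 : B1) hW using 1
    ext y
    rw [hθ', ha, slice_apply]
    simp

theorem lemma_L {Y : Cls} (hY : QV Y) (hl : HasLaw Y) (A : Type) [Group A] [Group.FG A] :
    ∃ (B : Type) (_ : Group B) (θ : A →* (B → A)), Y B ∧ Function.Injective θ ∧
      ∀ a, θ a ∈ W Y A B := by
  have hsurj : Function.Surjective (Abelianization.of : A →* Abelianization A) :=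
    QuotientGroup.mk'_surjective _
  have : Group.FG (Abelianization A) := Group.fg_of_surjective hsurj
  obtain ⟨ι, j, _, _, p, hp, e, ⟨E⟩⟩ :=
    CommGroup.equiv_free_prod_prod_multiplicative_zmod (Abelianization A)
  have : ∀ i, NeZero (p i ^ e i) := fun i => ⟨pow_ne_zero _ (hp i).ne_zero⟩
  let α : j → A →* Z := fun i => (Pi.evalMonoidHom (fun _ => Z) i).comp
    ((MonoidHom.fst _ _).comp (E.toMonoidHom.comp Abelianization.of))
  have hα : ∀ i a, α i a = (E (Abelianization.of a)).1 i := fun _ _ => rfl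
  have ha : ∀ i : j, ∃ a, E (Abelianization.of a) = (Pi.mulSingle i (Multiplicative.ofAdd 1), 1) :=
    fun i => (E.surjective.comp hsurj) _
  choose a ha using ha
  have key : ∀ s : Finset j, ∃ (B : Type) (_ : Group B) (θ : A →* (B → A)), Y B ∧
      Function.Injective θ ∧ ∀ x, (∀ i ∉ s, α i x = 1) → θ x ∈ W Y A B := by
    intro s
    induction s using Finset.induction_on with
    | empty =>
      obtain ⟨B, _, θ, h1, h2, h3⟩ := L_torsion hY hl A
        (Nat.card ((i : ι) → Multiplicative (ZMod (p i ^ e i)))) Nat.card_pos.ne'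
      refine ⟨B, inferInstance, θ, h1, h2, fun x hx => h3 x ?_⟩
      rw [← Abelianization.ker_of, MonoidHom.mem_ker, ← E.map_eq_one_iff, map_pow, map_pow]
      have : (E (Abelianization.of x)).1 = 1 := funext fun i => hx i (by simp)
      refine Prod.ext ?_ ?_
      · simp [this]
      · exact pow_card_eq_one'
    | insert i s hi ih =>
      obtain ⟨B, _, θ, h1, h2, h3⟩ := ih
      obtain ⟨B', _, θ', k1, k2, k3, k4⟩ := L_free hY hl h1 θ h2 (α i) (a i) (by simp [hα, ha])
      refine ⟨B', inferInstance, θ', k1, k2, fun x hx => ?_⟩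
      have e1 : x = a i ^ (α i x).toAdd * ((a i ^ (α i x).toAdd)⁻¹ * x) := by simp
      have e2 : α i ((a i ^ (α i x).toAdd)⁻¹ * x) = 1 := by
        rw [map_mul, map_inv, map_zpow, hα i (a i), ha]
        simp [← ofAdd_zsmul]
      rw [e1, map_mul, map_zpow]
      refine mul_mem (zpow_mem k3 _) (k4 _ e2 (h3 _ fun k hk => ?_))
      by_cases hki : k = i
      · rw [hki, e2]
      · rw [map_mul, map_inv, map_zpow, hα k (a i), ha, hx k (by simp [hk, hki])]
        simp [hki]
  obtain ⟨B, _, θ, h1, h2, h3⟩ := key Finset.univ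
  exact ⟨B, inferInstance, θ, h1, h2, fun x => h3 x (by simp)⟩

theorem cancel_le {X X' Y : Cls} (hX : QV X) (hX' : QV X') (hY : QV Y) (hl : HasLaw Y)
    (h : Le (mul X Y) (mul X' Y)) : Le X X' := by
  intro G _ hG
  refine hX'.of_fg G fun A hA => ?_
  obtain ⟨B, _, θ, h1, h2, h3⟩ := lemma_L hY hl A
  have h4 := (mul_iff hX' hY _).mp (h _ (wr_mem hX hY (hX.subgroup A hG) h1))
  exact hX'.sub (((bs A B).comp θ).codRestrict _ fun a => V_le_R _ _ (h3 a))
    (fun x y hxy => h2 (bs_inj _ _ (congrArg Subtype.val hxy))) h4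

theorem HasLaw.mul {X Y : Cls} (hX : QV X) (hY : QV Y) (lX : HasLaw X) (lY : HasLaw Y) :
    HasLaw (mul X Y) := by
  by_contra hne
  refine key_K lX 2 fun N _ _ _ => ?_
  have : Group.FG (N ≀ᵣ C 2) := Group.fg_of_finite
  obtain ⟨B, _, θ, h1, h2, h3⟩ := lemma_L hY lY (N ≀ᵣ C 2)
  set G := (N ≀ᵣ C 2) ≀ᵣ B
  have h4 := (mul_iff hX hY _).mp (free_mem (hX.mul hY) hne G)
  have h5 : X (V Y (FreeGroup G)) := hX.sub (Subgroup.inclusion (V_le_R _ _))
    (Subgroup.inclusion_injective _) h4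
  let π : FreeGroup G →* G := FreeGroup.lift id
  have hπ : Function.Surjective π := fun g => ⟨FreeGroup.of g, by simp [π]⟩
  have h6 : Var X (V Y G) := Var.surj
    ((π.comp (V Y (FreeGroup G)).subtype).codRestrict _ fun x => V_map π x.2) (fun y => by
      obtain ⟨x, hx, hxy⟩ := V_surj π hπ y.2
      exact ⟨⟨x, hx⟩, Subtype.ext hxy⟩) (le_var X _ h5)
  exact Var.sub (((bs _ B).comp θ).codRestrict _ fun a => h3 a)
    (fun x y hxy => h2 (bs_inj _ _ (congrArg Subtype.val hxy))) h6

end Pool.Agent.H.MP_5bbf46_al
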