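import Pool.Agent.H.MP_5bbf46_al.C

namespace Pool.Agent.H.MP_5bbf46_al

open Classical RegularWreathProduct

theorem sec {X : Cls} {Γ A M : Type} [Group Γ] [Group A] [Group M] (κ : Γ →* A ≀ᵣ (M × M))
    (N : Subgroup Γ) [hn : N.Normal] (hN : Var X N)
    (hfin : ∀ f : M × M → A, (Function.mulSupport f).Finite → ∃ γ, κ γ = bs A _ f)
    (μ : M) (hμ : μ ≠ 1) (h1 : ∃ n ∈ N, κ n = inl (μ, 1)) (h2 : ∃ n ∈ N, κ n = inl (1, μ)) :
    Var X (A ≀ᵣ Subgroup.zpowers μ) := by
  set T := Subgroup.zpowers μ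
  let U : Subgroup N := ((⊥ : Subgroup M).prod T).comap (rightHom.comp (κ.comp N.subtype))
  have hU : ∀ u : N, u ∈ U ↔ (κ u).right.1 = 1 ∧ (κ u).right.2 ∈ T := fun u => Iff.rfl
  let ψ : U →* A ≀ᵣ T :=
    { toFun := fun u => ⟨fun x => (κ u.1.1).left (1, x.1), ⟨(κ u.1.1).right.2, ((hU _).mp u.2).2⟩⟩
      map_one' := by ext <;> simp
      map_mul' := fun a b => by
        ext x
        · have h3 := ((hU _).mp a.2).1
          simp only [Subgroup.coe_mul, map_mul, mul_left, Pi.mul_apply, Subgroup.coe_inv]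
          congr 2
          exact Prod.ext (by simp [h3]) rfl
        · simp }
  refine Var.local ψ (fun w hw => ?_) (Var.sub U.subtype U.subtype_injective hN)
  change w ∈ ψ.range
  rw [eq_bs_mul w]
  refine mul_mem ?_ ?_
  · let f : M × M → A := fun y => if h : y.1 = 1 ∧ y.2 ∈ T then w.left ⟨y.2, h.2⟩ else 1
    obtain ⟨γ, hγ⟩ := hfin f ((hw.image fun x : T => ((1 : M), x.1)).subset fun y hy => by
      by_cases h : y.1 = 1 ∧ y.2 ∈ T
      · refine ⟨⟨y.2, h.2⟩, ?_, Prod.ext h.1.symm rfl⟩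
        simpa [f, h] using hy
      · simp [f, h] at hy)
    obtain ⟨n, hn1, hn2⟩ := h1
    refine ⟨⟨⟨γ * n * γ⁻¹ * n⁻¹, mul_mem (hn.conj_mem _ hn1 γ) (inv_mem hn1)⟩, ?_⟩, ?_⟩
    · rw [hU]
      simp [hγ, hn2]
    · ext x
      · simp [ψ, hγ, hn2, f, hμ]
      · simp [ψ, hγ, hn2]
  · obtain ⟨n, hn1, hn2⟩ := h2
    obtain ⟨k, hk⟩ := Subgroup.mem_zpowers_iff.mp w.right.2
    have e : κ (n ^ k) = inl (1, w.right.1) := by
      rw [map_zpow, hn2, ← map_zpow, ← hk]
      simp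
    refine ⟨⟨⟨n ^ k, zpow_mem hn1 k⟩, ?_⟩, ?_⟩
    · rw [hU]
      simp [e]
    · ext x
      · simp only [ψ, MonoidHom.coe_mk, OneHom.coe_mk, e]
        rfl
      · simp only [ψ, MonoidHom.coe_mk, OneHom.coe_mk, e]
        rfl

theorem cyc_prime {M : Type} [Group M] (μ : M) (hμ : μ ≠ 1) :
    ∃ (p : ℕ) (_ : Fact p.Prime) (π : Subgroup.zpowers μ →* C p), Function.Surjective π := by
  have hc : Nat.card (Subgroup.zpowers μ) ≠ 1 := by
    rw [Nat.card_zpowers]
    exact fun h => hμ (orderOf_eq_one_iff.mp h)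
  obtain ⟨p, hp, hd⟩ := Nat.exists_prime_and_dvd hc
  let e := zmodCyclicMulEquiv (G := Subgroup.zpowers μ) inferInstance
  refine ⟨p, ⟨hp⟩, ((ZMod.castHom hd (ZMod p)).toAddMonoidHom.toMultiplicative).comp
    e.symm.toMonoidHom, ?_⟩
  exact Function.Surjective.comp
    (g := (ZMod.castHom hd (ZMod p)).toAddMonoidHom.toMultiplicative)
    (ZMod.castHom_surjective hd) e.symm.surjective

theorem to_finite {X X' : Cls} (hX : QV X) {T D : Type} [Group T] [Group D] (π : T →* D)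
    (hπ : Function.Surjective π)
    (h : ∀ (A : Type) [Group A] [Group.FG A], X A → Var X' (A ≀ᵣ T))
    (N : Type) [Group N] [Finite N] (hN : Var X N) : Var X' (N ≀ᵣ D) := by
  obtain ⟨A, _, φ, h1, h2, h3⟩ := hN.cover hX
  have := h3 inferInstance
  exact Var.surj (bmap φ D) (bmap_surj φ h2 D) ((h A h1).pullback π hπ)

theorem step_D {X Y X' Y' : Cls} (hX : QV X) (hY : QV Y) (hX' : QV X') (hY' : QV Y')
    (h : Le (mul X Y) (mul X' Y')) (hn : ¬ Le Y Y') :
    ∃ (p : ℕ) (_ : Fact p.Prime), ∀ (N : Type) [Group N] [Finite N], Var X N →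
      Var X' (N ≀ᵣ C p) := by
  have : ∃ (B : Type) (_ : Group B) (t : B), Y B ∧ t ∈ R Y' B ∧ t ≠ 1 := by
    by_contra hne
    refine hn fun B _ hB => hY'.of_R fun t ht => ?_
    by_contra h1
    exact hne ⟨B, inferInstance, t, hB, ht, h1⟩
  obtain ⟨B, _, t, hB, ht, ht1⟩ := this
  obtain ⟨p, hp, π, hπ⟩ := cyc_prime t ht1
  refine ⟨p, hp, to_finite hX π hπ fun A _ _ hA => ?_⟩
  have h1 := (mul_iff hX' hY' _).mp (h _ (wr_mem hX hY hA (hY.prod hB hB)))
  exact sec (MonoidHom.id _) (R Y' (A ≀ᵣ (B × B))) (le_var _ _ h1) (fun f _ => ⟨_, rfl⟩) t ht1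
    ⟨_, R_map (inl.comp (MonoidHom.inl B B)) ht, rfl⟩
    ⟨_, R_map (inl.comp (MonoidHom.inr B B)) ht, rfl⟩

theorem dichotomy {X Y X' Y' : Cls} (hX : QV X) (hY : QV Y) (hX' : QV X') (hY' : QV Y')
    (hl : HasLaw X) (h : mul X Y = mul X' Y') : Le Y Y' ∨ Le Y' Y := by
  by_contra hne
  rw [not_or] at hne
  obtain ⟨p, _, hp⟩ := step_D hX hY hX' hY' (fun G _ hG => h ▸ hG) hne.1
  obtain ⟨q, _, hq⟩ := step_D hX' hY' hX hY (fun G _ hG => h ▸ hG) hne.2
  refine key_K hl p fun N _ _ hN => ?_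
  exact Var.sub ((bs _ (C q)).comp (Pi.constMonoidHom (C q) (N ≀ᵣ C p)))
    (fun x y hxy => congrFun (bs_inj _ _ hxy) 1) (hq _ (hp N hN))

/-- restricted wreath product -/
def RW (A B : Type) [Group A] [Group B] : Subgroup (A ≀ᵣ B) where
  carrier := {w | (Function.mulSupport w.left).Finite}
  mul_mem' := fun {a b} ha hb => by
    refine (Set.Finite.union ha (Set.Finite.image (fun x => a.right * x) hb)).subset fun x hx => ?_
    by_contra h
    simp only [Set.mem_union, not_or, Function.mem_mulSupport, not_not] at h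
    have h2 : b.left (a.right⁻¹ * x) = 1 := by
      by_contra h3
      exact h.2 ⟨_, h3, by simp⟩
    exact hx (by simp [h.1, h2])
  one_mem' := by simp
  inv_mem' := fun {a} ha => by
    refine (Set.Finite.image (fun x => a.right⁻¹ * x) ha).subset fun x hx => ?_
    exact ⟨a.right * x, by simpa using hx, by simp⟩

theorem mem_RW {A B : Type} [Group A] [Group B] {w : A ≀ᵣ B} :
    w ∈ RW A B ↔ (Function.mulSupport w.left).Finite := Iff.rfl

theorem fin_supp_ind {A B : Type} [Group A] (K : Subgroup (B → A))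
    (h : ∀ b a, Pi.mulSingle b a ∈ K) (f : B → A) (hf : (Function.mulSupport f).Finite) :
    f ∈ K := by
  have : ∀ s : Finset B, ∀ f : B → A, (∀ b ∉ s, f b = 1) → f ∈ K := by
    intro s
    induction s using Finset.induction_on with
    | empty =>
      intro f hf
      rw [show f = 1 from funext fun b => hf b (by simp)]
      exact one_mem _
    | insert b s _ ih =>
      intro f hf
      have e : f = Pi.mulSingle b (f b) * Function.update f b 1 := by
        ext x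
        by_cases hx : x = b
        · subst hx; simp
        · simp [hx]
      rw [e]
      refine mul_mem (h _ _) (ih _ fun x hx => ?_)
      by_cases hxb : x = b
      · subst hxb; simp
      · simp [hxb, hf x (by simp [hx, hxb])]
  exact this hf.toFinset f fun b hb => by simpa using hb

/-- step (1) -/
theorem step_one {X Y X' Y' : Cls} (hX : QV X) (hY : QV Y) (hX' : QV X') (hY' : QV Y')
    (hl : HasLaw Y') (h : Le (mul X Y) (mul X' Y')) (hle : Le Y' Y) {A : Type} [Group A]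
    [Group.FG A] (hA : X A) {B0 : Type} [Group B0] (hB0 : Y B0) :
    X' (RW A B0 ⊓ (R Y' B0).comap rightHom : Subgroup (A ≀ᵣ B0)) := by
  obtain ⟨B, _, θ, h1, h2, h3⟩ := lemma_L hY' hl A
  have h4 := (mul_iff hX' hY' _).mp (h _ (wr_mem hX hY hA (hY.prod (hle _ h1) hB0)))
  let Φ : (B0 → A) →* (B × B0 → A) :=
    { toFun := fun f y => θ (f y.2) y.1
      map_one' := by ext; simp
      map_mul' := fun f g => by ext; simp }
  have hΦ : ∀ f y, Φ f y = θ (f y.2) y.1 := fun _ _ => rfl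
  let Θ : A ≀ᵣ B0 →* A ≀ᵣ (B × B0) := wmap (MonoidHom.inr B B0) Φ fun β f y => by simp [hΦ]
  have hΘ : Function.Injective Θ := by
    intro a b hab
    ext x
    · exact h2 (funext fun y => congrArg (fun w : A ≀ᵣ (B × B0) => w.left (y, x)) hab)
    · exact congrArg (fun w : A ≀ᵣ (B × B0) => w.right.2) hab
  refine hX'.sub ((Θ.comp (Subgroup.subtype _)).codRestrict (R Y' _) fun w => ?_)
    (fun x y hxy => Subtype.ext (hΘ (congrArg Subtype.val hxy))) h4
  change Θ w.1 ∈ R Y' _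
  rw [eq_bs_mul w.1, map_mul]
  refine mul_mem ?_ (R_map (Θ.comp inl) w.2.2)
  refine fin_supp_ind ((R Y' _).comap (Θ.comp (bs A B0))) (fun m a => ?_) _ w.2.1
  change Θ (bs A B0 _) ∈ R Y' _
  rw [wmap_bs]
  refine V_le_R _ _ ?_
  convert W_slice m (h3 a) using 1
  rw [mem_W]
  have : Φ (Pi.mulSingle m a) = slice A B m (θ a) := by
    ext y
    rw [hΦ, slice_apply]
    split_ifs with h5
    · rw [h5]; simp
    · simp [h5]
  rw [this]

/-- the class of residuals -/
def Res (Y Y' : Cls) : Cls := fun G _ =>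
  ∃ (B : Type) (_ : Group B) (j : G →* B), Y B ∧ Function.Injective j ∧ ∀ g, j g ∈ R Y' B

theorem res_LE {Y Y' : Cls} (hY : QV Y) {M : Type} [Group M] (hM : LS (Res Y Y') M)
    (S : Finset M) : ∃ (B : Type) (_ : Group B) (φ : M → B), Y B ∧ (∀ g, φ g ∈ R Y' B) ∧
      MulOn S φ ∧ ∀ x ∈ S, ∀ y ∈ S, φ x = φ y → x = y := by
  have key : ∀ (S' : Finset M) (D : Finset M), ∃ (B : Type) (_ : Group B) (φ : M → B), Y B ∧
      (∀ g, φ g ∈ R Y' B) ∧ MulOn S' φ ∧ ∀ d ∈ D, d ≠ 1 → φ d ≠ 1 := by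
    intro S' D
    induction D using Finset.induction_on with
    | empty => exact ⟨Unit, inferInstance, fun _ => 1, hY.triv _, fun _ => one_mem _,
        fun _ _ _ _ => rfl, by simp⟩
    | insert d D _ ih =>
      obtain ⟨B, _, φ, h1, h2, h3, h4⟩ := ih
      by_cases hd : d = 1
      · refine ⟨B, inferInstance, φ, h1, h2, h3, fun e he he1 => ?_⟩
        rcases Finset.mem_insert.mp he with rfl | he
        · exact absurd hd he1
        · exact h4 e he he1
      · obtain ⟨H, _, ψ, ⟨B', _, j, k1, k2, k3⟩, k4, k5⟩ := hM S' d hd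
        refine ⟨B × B', inferInstance, fun g => (φ g, j (ψ g)), hY.prod h1 k1, fun g => ?_,
          fun x hx y hy => Prod.ext (h3 x hx y hy) (k4.comp_hom j x hx y hy), fun e he he1 h => ?_⟩
        · have := mul_mem (R_map (MonoidHom.inl B B') (h2 g)) (R_map (MonoidHom.inr B B') (k3 (ψ g)))
          simpa using this
        · rcases Finset.mem_insert.mp he with rfl | he
          · exact k5 (k2 (by rw [map_one]; exact congrArg Prod.snd h))
          · exact h4 e he he1 (congrArg Prod.fst h)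
  obtain ⟨B, _, φ, h1, h2, h3, h4⟩ := key (S ∪ (S ×ˢ S).image fun p => p.1⁻¹ * p.2)
    ((S ×ˢ S).image fun p => p.1⁻¹ * p.2)
  refine ⟨B, inferInstance, φ, h1, h2, h3.mono Finset.subset_union_left, fun x hx y hy hxy => ?_⟩
  have hp : x⁻¹ * y ∈ (S ×ˢ S).image fun p => p.1⁻¹ * p.2 :=
    Finset.mem_image.mpr ⟨(x, y), Finset.mem_product.mpr ⟨hx, hy⟩, rfl⟩
  by_contra hne
  refine h4 _ hp (fun h => hne (inv_mul_eq_one.mp h)) ?_
  have := h3 x (Finset.mem_union_left _ hx) _ (Finset.mem_union_right _ hp)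
  rw [mul_inv_cancel_left, ← hxy] at this
  exact left_eq_mul.mp this

/-- step (2) -/
theorem step_two {X Y X' Y' : Cls} (hX : QV X) (hY : QV Y) (hX' : QV X') (hY' : QV Y')
    (hl : HasLaw Y') (h : Le (mul X Y) (mul X' Y')) (hle : Le Y' Y) {A : Type} [Group A]
    [Group.FG A] (hA : X A) {M : Type} [Group M] (hM : LS (Res Y Y') M) : X' (RW A M) := by
  refine hX' _ fun E g hg => ?_
  let E' := insert g E
  let S0 : Finset M := E'.biUnion fun w => insert w.1.right (mem_RW.mp w.2).toFinset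
  have hS0r : ∀ w ∈ E', w.1.right ∈ S0 := fun w hw =>
    Finset.mem_biUnion.mpr ⟨w, hw, Finset.mem_insert_self _ _⟩
  have hS0l : ∀ w ∈ E', ∀ x, w.1.left x ≠ 1 → x ∈ S0 := fun w hw x hx =>
    Finset.mem_biUnion.mpr ⟨w, hw, Finset.mem_insert_of_mem (by simpa using hx)⟩
  let S1 : Finset M := insert 1 (S0 ∪ (S0 ×ˢ S0).image fun p => p.1 * p.2)
  have hS01 : ∀ x ∈ S0, x ∈ S1 := fun x hx =>
    Finset.mem_insert_of_mem (Finset.mem_union_left _ hx)
  have hS1 : ∀ x ∈ S0, ∀ y ∈ S0, x * y ∈ S1 := fun x hx y hy =>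
    Finset.mem_insert_of_mem (Finset.mem_union_right _
      (Finset.mem_image.mpr ⟨(x, y), Finset.mem_product.mpr ⟨hx, hy⟩, rfl⟩))
  obtain ⟨B, _, φ, h1, h2, h3, h4⟩ := res_LE hY hM S1
  let ι : S1 → B := fun x => φ x.1
  have hι : Function.Injective ι := fun x y hxy => Subtype.ext (h4 _ x.2 _ y.2 hxy)
  let push : (M → A) → B → A := fun f => Function.extend ι (fun x => f x.1) 1
  have hp1 : ∀ f x, x ∈ S1 → push f (φ x) = f x := fun f x hx =>
    hι.extend_apply (fun x => f x.1) 1 ⟨x, hx⟩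
  have hp2 : ∀ f y, push f y ≠ 1 → ∃ x ∈ S1, φ x = y ∧ f x ≠ 1 := by
    intro f y hy
    by_cases hex : ∃ x, ι x = y
    · obtain ⟨x, rfl⟩ := hex
      exact ⟨x.1, x.2, rfl, by rwa [hp1 f x.1 x.2] at hy⟩
    · exact absurd (Function.extend_apply' _ _ _ hex) hy
  have hfin : ∀ f, (Function.mulSupport (push f)).Finite := fun f => by
    refine (S1.finite_toSet.image φ).subset fun y hy => ?_
    obtain ⟨x, hx, rfl, -⟩ := hp2 _ y hy
    exact ⟨x, hx, rfl⟩
  refine ⟨(RW A B ⊓ (R Y' B).comap rightHom : Subgroup (A ≀ᵣ B)), inferInstance,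
    fun w => ⟨⟨push w.1.left, φ w.1.right⟩, hfin _, h2 _⟩,
    step_one hX hY hX' hY' hl h hle hA h1, fun a ha b hb => ?_, fun h5 => hg ?_⟩
  · have ha' : a ∈ E' := Finset.mem_insert_of_mem ha
    have hb' : b ∈ E' := Finset.mem_insert_of_mem hb
    have hm := hS0r a ha'
    have hkey : ∀ y, push b.1.left ((φ a.1.right)⁻¹ * y) ≠ 1 →
        ∃ x ∈ S0, a.1.right * x ∈ S1 ∧ φ (a.1.right * x) = y := by
      intro y hy
      obtain ⟨x, -, hx, hx1⟩ := hp2 _ _ hy
      have hx0 := hS0l b hb' x hx1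
      exact ⟨x, hx0, hS1 _ hm _ hx0, by rw [h3 _ (hS01 _ hm) _ (hS01 _ hx0), hx]; simp⟩
    apply Subtype.ext
    ext y
    · change push (a.1 * b.1).left y = push a.1.left y * push b.1.left ((φ a.1.right)⁻¹ * y)
      by_cases hex : ∃ x ∈ S1, φ x = y
      · obtain ⟨x, hx, rfl⟩ := hex
        rw [hp1 _ _ hx, hp1 _ _ hx, mul_left, Pi.mul_apply]
        congr 1
        by_cases h6 : b.1.left (a.1.right⁻¹ * x) = 1
        · rw [h6]
          by_contra h7
          obtain ⟨x', hx', hx1, hx2⟩ := hkey _ (Ne.symm h7)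
          have h8 := h4 _ hx1 _ hx hx2
          subst h8
          rw [h3 _ (hS01 _ hm) _ (hS01 _ hx'), inv_mul_cancel_left, hp1 _ _ (hS01 _ hx')] at h7
          rw [inv_mul_cancel_left] at h6
          exact h7 h6.symm
        · have h7 := hS01 _ (hS0l b hb' _ h6)
          have h8 := h3 _ (hS01 _ hm) _ h7
          rw [mul_inv_cancel_left] at h8
          rw [h8, inv_mul_cancel_left, hp1 _ _ h7]
      · have e : ∀ f, push f y = 1 := fun f => by
          by_contra h6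
          obtain ⟨x, hx, hx1, -⟩ := hp2 _ _ h6
          exact hex ⟨x, hx, hx1⟩
        rw [e, e, one_mul]
        by_contra h7
        obtain ⟨x', -, hx1, hx2⟩ := hkey _ (Ne.symm h7)
        exact hex ⟨_, hx1, hx2⟩
    · exact h3 _ (hS01 _ (hS0r a ha')) _ (hS01 _ (hS0r b hb'))
  · have hg' : g ∈ E' := Finset.mem_insert_self _ _
    have e1 : push g.1.left = 1 := congrArg (fun w => w.1.left) h5
    have e2 : φ g.1.right = 1 := congrArg (fun w => w.1.right) h5
    apply Subtype.ext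
    ext x
    · by_contra h6
      have h7 := hp1 g.1.left x (hS01 _ (hS0l g hg' x h6))
      rw [e1] at h7
      exact h6 h7.symm
    · exact h4 _ (hS01 _ (hS0r g hg')) _ (Finset.mem_insert_self _ _)
        (e2.trans (h3.one (Finset.mem_insert_self _ _)).symm)

/-- step (3) -/
theorem step_three {X Y X' Y' : Cls} (hX : QV X) (hY : QV Y) (hX' : QV X') (hY' : QV Y')
    (hl : HasLaw Y') (hlX : HasLaw X) (h : mul X Y = mul X' Y') (hle : Le Y' Y)
    {M D : Type} [Group M] [Group D] (hM : LS (Res Y Y') M) (hD : Y' D) : Y (M ≀ᵣ D) := by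
  refine hY.of_R fun t ht => ?_
  by_contra ht1
  have hr : t.right = 1 := ht _ rightHom (hle _ hD)
  have : t.left ≠ 1 := fun h => ht1 (by ext <;> simp [h, hr])
  obtain ⟨c, hc⟩ := Function.ne_iff.mp this
  obtain ⟨p, hp, π, hπ⟩ := cyc_prime (t.left c) hc
  refine key_K hlX p (to_finite hX π hπ fun A _ _ hA => ?_)
  have h1 := step_two hX hY hX' hY' hl (fun G _ hG => h ▸ hG) hle hA ((QV_LS _).prod hM hM)
  have h2 := wr_mem hX' hY' h1 (hY'.prod hD hD)
  rw [← h, mul_iff hX hY] at h2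
  set Γ := RW A (M × M)
  let top : M × M →* Γ := (inl : M × M →* A ≀ᵣ (M × M)).codRestrict _ fun m => by simp [Γ, mem_RW]
  let j1 : M ≀ᵣ D →* Γ ≀ᵣ (D × D) := wmap (MonoidHom.inl D D)
    { toFun := fun f y => top (f y.1, 1)
      map_one' := by ext1; exact map_one top
      map_mul' := fun f g => by ext1; rw [Pi.mul_apply, Pi.mul_apply, ← map_mul]; simp } fun _ _ _ => by simp
  let j2 : M ≀ᵣ D →* Γ ≀ᵣ (D × D) := wmap (MonoidHom.inr D D)
    { toFun := fun f y => top (1, f y.2)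
      map_one' := by ext1; exact map_one top
      map_mul' := fun f g => by ext1; rw [Pi.mul_apply, Pi.mul_apply, ← map_mul]; simp } fun _ _ _ => by simp
  refine sec (Γ.subtype.comp (Pi.evalMonoidHom (fun _ : D × D => Γ) (c, c)))
    ((R Y (Γ ≀ᵣ (D × D))).comap (bs Γ (D × D))) ?_ (fun f hf => ⟨fun _ => ⟨bs A _ f, hf⟩, rfl⟩)
    (t.left c) hc ⟨(j1 t).left, ?_, rfl⟩ ⟨(j2 t).left, ?_, rfl⟩
  · exact Var.sub (((bs Γ (D × D)).comp (Subgroup.subtype _)).codRestrict (R Y _) fun x => x.2)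
      (fun x y hxy => Subtype.ext (bs_inj _ _ (congrArg Subtype.val hxy))) (le_var _ _ h2)
  · rw [Subgroup.mem_comap, ← eq_bs (by simp [j1, hr])]
    exact R_map j1 ht
  · rw [Subgroup.mem_comap, ← eq_bs (by simp [j2, hr])]
    exact R_map j2 ht

theorem equidiv {X Y X' Y' : Cls} (hX : QV X) (hY : QV Y) (hX' : QV X') (hY' : QV Y')
    (hl : HasLaw (mul X Y)) (h : mul X Y = mul X' Y') (hle : Le Y' Y) :
    ∃ Q, QV Q ∧ Y = mul Q Y' := by
  refine ⟨LS (Res Y Y'), QV_LS _, Le.antisymm (fun B _ hB => ?_) fun G _ hG => ?_⟩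
  · rw [mul_iff (QV_LS _) hY']
    exact le_LS _ _ ⟨B, inferInstance, Subgroup.subtype _, hB, Subgroup.subtype_injective _,
      fun g => g.2⟩
  · obtain ⟨N, _, h1, h2⟩ := hG
    obtain ⟨κ, hκ⟩ := kk (QuotientGroup.mk' N) (QuotientGroup.mk'_surjective N)
    refine hY.sub κ hκ (step_three hX hY hX' hY' (hl.mono (hle.trans (le_mul_right hX hY)))
      (hl.mono (le_mul_left hX hY)) h hle ?_ h2)
    rwa [QuotientGroup.ker_mk']

end Pool.Agent.H.MP_5bbf46_al
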