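import Mathlib

namespace Pool.Agent.H.MP_5bbf46_al

/-- A class of groups. -/
def Cls : Type 1 := ∀ (G : Type) [Group G], Prop

/-- The quasi-identity `u_1 = 1 ∧ ... ∧ u_k = 1 → u = 1` holds in `G`. -/
def Holds (G : Type) [Group G] (q : List (FreeGroup ℕ) × FreeGroup ℕ) : Prop :=
  ∀ g : ℕ → G, (∀ u ∈ q.1, FreeGroup.lift g u = 1) → FreeGroup.lift g q.2 = 1

/-- A quasivariety: the class defined by a set of quasi-identities. -/
def IsQuasivariety (X : Cls) : Prop :=
  ∃ T : Set (List (FreeGroup ℕ) × FreeGroup ℕ), ∀ (G : Type) [Group G], X G ↔ ∀ q ∈ T, Holds G q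

/-- The class satisfies a non-trivial identity. -/
def HasLaw (X : Cls) : Prop :=
  ∃ w : FreeGroup ℕ, w ≠ 1 ∧ ∀ (G : Type) [Group G], X G → ∀ g : ℕ → G, FreeGroup.lift g w = 1

/-- The product of two classes. -/
def mul (X Y : Cls) : Cls := fun G _ => ∃ (N : Subgroup G) (_ : N.Normal), X N ∧ Y (G ⧸ N)

/-- The class of trivial groups. -/
def triv : Cls := fun G _ => Subsingleton G

end Pool.Agent.H.MP_5bbf46_al
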