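import Pool.Agent.H.MP_5bbf46_al.D

namespace Pool.Agent.H.MP_5bbf46_al

open Classical RegularWreathProduct

def prodL (l : List Cls) : Cls := l.foldr mul triv

@[simp] theorem prodL_nil : prodL [] = triv := rfl
@[simp] theorem prodL_cons (X : Cls) (l : List Cls) : prodL (X :: l) = mul X (prodL l) := rfl

theorem prodL_qv {l : List Cls} (h : ∀ X ∈ l, QV X) : QV (prodL l) := by
  induction l with
  | nil => exact QV_triv
  | cons X l ih => exact (h X (by simp)).mul (ih fun Y hY => h Y (by simp [hY]))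

theorem prodL_append {l l' : List Cls} (h : ∀ X ∈ l, QV X) (h' : ∀ X ∈ l', QV X) :
    prodL (l ++ l') = mul (prodL l) (prodL l') := by
  induction l with
  | nil => exact (triv_mul (prodL_qv h')).symm
  | cons X l ih =>
    have h1 : ∀ Y ∈ l, QV Y := fun Y hY => h Y (by simp [hY])
    rw [List.cons_append, prodL_cons, prodL_cons, ih h1,
      mul_assoc' (h X (by simp)) (prodL_qv h1) (prodL_qv h')]

theorem le_prodL {l : List Cls} (h : ∀ X ∈ l, QV X) {X : Cls} (hX : X ∈ l) : Le X (prodL l) := by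
  induction l with
  | nil => simp at hX
  | cons Y l ih =>
    have h1 : ∀ Y ∈ l, QV Y := fun Y hY => h Y (by simp [hY])
    rcases List.mem_cons.mp hX with rfl | hX
    · exact le_mul_left (h X (by simp)) (prodL_qv h1)
    · exact (ih h1 hX).trans (le_mul_right (h Y (by simp)) (prodL_qv h1))

theorem hasLaw_triv : HasLaw triv :=
  ⟨FreeGroup.of 0, FreeGroup.of_ne_one 0, fun G _ hG _ => @Subsingleton.elim G hG _ _⟩

theorem prodL_law {l : List Cls} (h : ∀ X ∈ l, QV X) (h' : ∀ X ∈ l, HasLaw X) :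
    HasLaw (prodL l) := by
  induction l with
  | nil => exact hasLaw_triv
  | cons X l ih =>
    have h1 : ∀ Y ∈ l, QV Y := fun Y hY => h Y (by simp [hY])
    exact HasLaw.mul (h X (by simp)) (prodL_qv h1) (h' X (by simp))
      (ih h1 fun Y hY => h' Y (by simp [hY]))

theorem prodL_noLaw {l : List Cls} (h : ∀ X ∈ l, QV X) (h' : ∀ X ∈ l, X ≠ triv) :
    NoLaw (prodL l) l.length := by
  induction l with
  | nil => exact noLaw_zero _
  | cons X l ih =>
    have h1 : ∀ Y ∈ l, QV Y := fun Y hY => h Y (by simp [hY])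
    have hq := prodL_qv h1
    obtain ⟨A, _, a, hA, ha⟩ := ne_triv (h X (by simp)) (h' X (by simp))
    intro L k1 k2 k3
    obtain ⟨H, _, g, hH, hg⟩ := girth (hq.triv _) (fun _ _ _ _ a b => hq.prod a b)
      (ih h1 fun Y hY => h' Y (by simp [hY])) ha L k1 k2 k3
    exact ⟨_, inferInstance, g, wr_mem (h X (by simp)) hq hA hH, hg⟩

theorem ne_triv_of_le {X Y : Cls} (hX : QV X) (h : Le X Y) (hn : X ≠ triv) : Y ≠ triv := by
  rintro rfl
  exact hn (Le.antisymm h fun G _ hG => @QV.triv _ hX G _ hG)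

def Irr (X : Cls) : Prop :=
  QV X ∧ HasLaw X ∧ X ≠ triv ∧ ∀ Y Q, QV Y → QV Q → X = mul Y Q → Y = triv ∨ Q = triv

theorem exists_fact {X : Cls} (hX : QV X) (hl : HasLaw X) (hn : X ≠ triv) :
    ∃ l : List Cls, l ≠ [] ∧ (∀ Y ∈ l, Irr Y) ∧ prodL l = X := by
  obtain ⟨w, hw, hw'⟩ := hasLaw_iff.mp hl
  let P : ℕ → Prop := fun n => ∃ l : List Cls, l.length = n ∧ (∀ Y ∈ l, QV Y) ∧
    (∀ Y ∈ l, Y ≠ triv) ∧ prodL l = X
  have hb : ∀ n, P n → n ≤ w.toWord.length := by
    rintro n ⟨l, rfl, h1, h2, h3⟩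
    by_contra hlt
    obtain ⟨H, _, g, hH, hg⟩ := (prodL_noLaw h1 h2).word hw (by omega)
    exact hg (hw' H g (h3 ▸ hH))
  have h1 : P 1 := ⟨[X], rfl, by simpa using hX, by simpa using hn, mul_triv hX⟩
  obtain ⟨l, k1, k2, k3, k4⟩ : P (Nat.findGreatest P w.toWord.length) :=
    Nat.findGreatest_spec (hb 1 h1) h1
  refine ⟨l, fun h => hn (by rw [← k4, h]; rfl), fun Y hY => ⟨k2 Y hY,
    hl.mono (k4 ▸ le_prodL k2 hY), k3 Y hY, fun U Q hU hQ hYUQ => ?_⟩, k4⟩
  by_contra hne
  rw [not_or] at hne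
  obtain ⟨l1, l2, rfl⟩ := List.append_of_mem hY
  have q1 : ∀ Y ∈ l1, QV Y := fun Y hY => k2 Y (by simp [hY])
  have q2 : ∀ Y ∈ l2, QV Y := fun Y hY => k2 Y (by simp [hY])
  have q3 : ∀ Y ∈ U :: Q :: l2, QV Y := by
    intro Y hY
    simp only [List.mem_cons] at hY
    rcases hY with rfl | rfl | hY
    exacts [hU, hQ, q2 Y hY]
  have hP : P (Nat.findGreatest P w.toWord.length + 1) := by
    refine ⟨l1 ++ U :: Q :: l2, by rw [← k1]; simp; omega, fun Y hY => ?_, fun Y hY => ?_, ?_⟩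
    · rcases List.mem_append.mp hY with hY | hY
      exacts [q1 Y hY, q3 Y hY]
    · simp only [List.mem_append, List.mem_cons] at hY
      rcases hY with hY | rfl | rfl | hY
      exacts [k3 Y (by simp [hY]), hne.1, hne.2, k3 Y (by simp [hY])]
    · rw [← k4, prodL_append q1 q3, prodL_append q1 (fun Y hY => k2 Y (List.mem_append_right _ hY)),
        prodL_cons, prodL_cons, prodL_cons, hYUQ, mul_assoc' hU hQ (prodL_qv q2)]
  exact Nat.findGreatest_is_greatest (Nat.lt_succ_self _) (hb _ hP) hP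

theorem last_eq {X Y X' Y' : Cls} (hX : QV X) (hY : Irr Y) (hX' : QV X') (hY' : Irr Y')
    (hl : HasLaw (mul X Y)) (h : mul X Y = mul X' Y') (hle : Le Y' Y) : Y = Y' := by
  obtain ⟨Q, hQ, e⟩ := equidiv hX hY.1 hX' hY'.1 hl h hle
  rcases hY.2.2.2 Q Y' hQ hY'.1 e with h1 | h1
  · rw [e, h1, triv_mul hY'.1]
  · exact absurd h1 hY'.2.2.1

theorem unique_fact (l : List Cls) : ∀ l' : List Cls, (∀ Y ∈ l, Irr Y) → (∀ Y ∈ l', Irr Y) →
    prodL l = prodL l' → l = l' := by
  induction l using List.reverseRecOn with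
  | nil =>
    intro l' _ h' e
    cases l' with
    | nil => rfl
    | cons Y l' =>
      exact absurd e.symm (ne_triv_of_le (h' Y (by simp)).1
        (le_prodL (fun Y hY => (h' Y hY).1) (by simp)) (h' Y (by simp)).2.2.1)
  | append_singleton l Y ih =>
    intro l' h h' e
    have hY := h Y (by simp)
    rcases List.eq_nil_or_concat l' with rfl | ⟨l', Y', rfl⟩
    · exact absurd e (ne_triv_of_le hY.1 (le_prodL (fun Y hY => (h Y hY).1) (by simp)) hY.2.2.1)
    · rw [List.concat_eq_append] at h' e ⊢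
      have hY' := h' Y' (by simp)
      have i1 : ∀ Y ∈ l, Irr Y := fun Y hY => h Y (by simp [hY])
      have i2 : ∀ Y ∈ l', Irr Y := fun Y hY => h' Y (by simp [hY])
      have q1 := prodL_qv fun Y hY => (i1 Y hY).1
      have q2 := prodL_qv fun Y hY => (i2 Y hY).1
      rw [prodL_append (fun Y hY => (i1 Y hY).1) (by simpa using hY.1),
        prodL_append (fun Y hY => (i2 Y hY).1) (by simpa using hY'.1), prodL_cons, prodL_cons,
        prodL_nil, mul_triv hY.1, mul_triv hY'.1] at e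
      have l1 := prodL_law (fun Y hY => (i1 Y hY).1) fun Y hY => (i1 Y hY).2.1
      have l2 := HasLaw.mul q1 hY.1 l1 hY.2.1
      have e1 : Y = Y' := by
        rcases dichotomy q1 hY.1 q2 hY'.1 l1 e with h1 | h1
        · exact (last_eq q2 hY' q1 hY (e ▸ l2) e.symm h1).symm
        · exact last_eq q1 hY q2 hY' l2 e h1
      subst e1
      rw [ih l' i1 i2 (Le.antisymm (cancel_le q1 q2 hY.1 hY.2.1 fun G _ hG => e ▸ hG)
        (cancel_le q2 q1 hY.1 hY.2.1 fun G _ hG => e ▸ hG))]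

theorem main : ∃ (ι : Type 1) (e : FreeSemigroup ι → Cls), Function.Injective e ∧
    Set.range e = {X | IsQuasivariety X ∧ HasLaw X ∧ X ≠ triv} ∧
    ∀ a b, e (a * b) = mul (e a) (e b) := by
  let t : FreeSemigroup {X // Irr X} → List Cls := fun a => (a.head :: a.tail).map Subtype.val
  have ht : ∀ a, ∀ Y ∈ t a, Irr Y := by
    intro a Y hY
    obtain ⟨Y, -, rfl⟩ := List.mem_map.mp hY
    exact Y.2
  refine ⟨{X // Irr X}, fun a => prodL (t a), fun a b hab => ?_, ?_, fun a b => ?_⟩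
  · have h1 := List.map_injective_iff.mpr Subtype.val_injective (unique_fact _ _ (ht a) (ht b) hab)
    simp only [List.cons.injEq] at h1
    exact FreeSemigroup.ext h1.1 h1.2
  · ext X
    constructor
    · rintro ⟨a, rfl⟩
      exact ⟨(prodL_qv fun Y hY => (ht a Y hY).1).isQuasivariety,
        prodL_law (fun Y hY => (ht a Y hY).1) fun Y hY => (ht a Y hY).2.1,
        ne_triv_of_le a.head.2.1 (le_prodL (fun Y hY => (ht a Y hY).1) (by simp [t]))
          a.head.2.2.2.1⟩
    · rintro ⟨h1, h2, h3⟩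
      obtain ⟨l, k1, k2, k3⟩ := exists_fact h1.qv h2 h3
      obtain ⟨Y, l, rfl⟩ := List.exists_cons_of_ne_nil k1
      refine ⟨⟨⟨Y, k2 Y (by simp)⟩, l.attachWith Irr fun Y hY => k2 Y (by simp [hY])⟩, ?_⟩
      rw [← k3]
      simp [t]
  · rw [← prodL_append (fun Y hY => (ht a Y hY).1) fun Y hY => (ht b Y hY).1]
    simp [t]

end Pool.Agent.H.MP_5bbf46_al
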